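import Pool.Agent.Lib.helper99.LocalFlow

/-!
The flow of a smooth vector field `X` on an open set `Ω` of a finite-dimensional space:
uniqueness, group property, openness of the domain, joint smoothness, blow-up alternative.
-/

open scoped Topology ContDiff
open Set Filter Metric

namespace Pool.Agent.H99

universe u

variable {E : Type u} [NormedAddCommGroup E] [NormedSpace ℝ E]

/-- `γ` solves `y' = X y` inside `Ω` on `(a, b)`. -/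
def Sol (X : E → E) (Ω : Set E) (γ : ℝ → E) (a b : ℝ) : Prop :=
  ∀ s ∈ Ioo a b, γ s ∈ Ω ∧ HasDerivAt γ (X (γ s)) s

/-- `Conn X Ω u t v`: the solution with initial value `u` exists in `Ω` up to time `t`
(of either sign) and takes the value `v` there. -/
def Conn (X : E → E) (Ω : Set E) (u : E) (t : ℝ) (v : E) : Prop :=
  ∃ (γ : ℝ → E) (a b : ℝ), a < 0 ∧ 0 < b ∧ a < t ∧ t < b ∧ γ 0 = u ∧ γ t = v ∧ Sol X Ω γ a b

variable {X : E → E} {Ω : Set E} {γ γ₁ γ₂ : ℝ → E} {a b a₁ b₁ a₂ b₂ t t₀ s : ℝ} {u v w : E}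

theorem Sol.mono (h : Sol X Ω γ a b) (ha : a ≤ a₁) (hb : b₁ ≤ b) : Sol X Ω γ a₁ b₁ :=
  fun s hs => h s ⟨ha.trans_lt hs.1, hs.2.trans_le hb⟩

theorem Sol.continuousAt (h : Sol X Ω γ a b) (hs : s ∈ Ioo a b) : ContinuousAt γ s :=
  (h s hs).2.continuousAt

theorem Sol.shift (h : Sol X Ω γ a b) (c : ℝ) : Sol X Ω (fun s => γ (s + c)) (a - c) (b - c) := by
  intro s hs
  have hs' : s + c ∈ Ioo a b := ⟨by linarith [hs.1], by linarith [hs.2]⟩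
  exact ⟨(h _ hs').1, (h _ hs').2.comp_add_const s c⟩

theorem local_unique (hΩ : IsOpen Ω) (hX : ContDiffOn ℝ 1 X Ω) (h₁ : Sol X Ω γ₁ a b)
    (h₂ : Sol X Ω γ₂ a b) (ht : t ∈ Ioo a b) (h : γ₁ t = γ₂ t) : γ₁ =ᶠ[𝓝 t] γ₂ := by
  have hX1 : ContDiffAt ℝ 1 X (γ₁ t) := hX.contDiffAt (hΩ.mem_nhds (h₁ t ht).1)
  obtain ⟨K, S, hS, hK⟩ := hX1.exists_lipschitzOnWith
  have e1 : ∀ᶠ s in 𝓝 t, γ₁ s ∈ S := (h₁.continuousAt ht).eventually hS
  have e2 : ∀ᶠ s in 𝓝 t, γ₂ s ∈ S := (h₂.continuousAt ht).eventually (h ▸ hS)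
  have e3 : ∀ᶠ s in 𝓝 t, s ∈ Ioo a b := Ioo_mem_nhds ht.1 ht.2
  refine ODE_solution_unique_of_eventually (v := fun _ => X) (s := fun _ => S) (K := K)
    (Eventually.of_forall fun _ => hK) ?_ ?_ h
  · filter_upwards [e1, e3] with s hs hs'
    exact ⟨(h₁ s hs').2, hs⟩
  · filter_upwards [e2, e3] with s hs hs'
    exact ⟨(h₂ s hs').2, hs⟩

theorem Sol.eqOn (hΩ : IsOpen Ω) (hX : ContDiffOn ℝ 1 X Ω) (h₁ : Sol X Ω γ₁ a b)
    (h₂ : Sol X Ω γ₂ a b) (ht₀ : t₀ ∈ Ioo a b) (h : γ₁ t₀ = γ₂ t₀) :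
    EqOn γ₁ γ₂ (Ioo a b) := by
  have key : Ioo a b ⊆ {t | γ₁ =ᶠ[𝓝 t] γ₂} := by
    apply isPreconnected_Ioo.subset_of_closure_inter_subset
    · exact isOpen_setOfPred_eventually_nhds
    · exact ⟨t₀, ht₀, local_unique hΩ hX h₁ h₂ ht₀ h⟩
    · rintro t ⟨ht, ht'⟩
      have hne : (𝓝[{t | γ₁ =ᶠ[𝓝 t] γ₂}] t).NeBot := mem_closure_iff_nhdsWithin_neBot.1 ht
      have c1 : Tendsto γ₁ (𝓝[{t | γ₁ =ᶠ[𝓝 t] γ₂}] t) (𝓝 (γ₁ t)) :=
        (h₁.continuousAt ht').continuousWithinAt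
      have c2 : Tendsto γ₂ (𝓝[{t | γ₁ =ᶠ[𝓝 t] γ₂}] t) (𝓝 (γ₂ t)) :=
        (h₂.continuousAt ht').continuousWithinAt
      have e : γ₁ =ᶠ[𝓝[{t | γ₁ =ᶠ[𝓝 t] γ₂}] t] γ₂ := by
        filter_upwards [self_mem_nhdsWithin] with s hs
        exact Filter.EventuallyEq.eq_of_nhds hs
      exact local_unique hΩ hX h₁ h₂ ht' (tendsto_nhds_unique_of_eventuallyEq c1 c2 e)
  intro t ht
  exact Filter.EventuallyEq.eq_of_nhds (key ht)

theorem Sol.glue (hΩ : IsOpen Ω) (hX : ContDiffOn ℝ 1 X Ω) (h₁ : Sol X Ω γ₁ a₁ b₁)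
    (h₂ : Sol X Ω γ₂ a₂ b₂) (ht₁ : t₀ ∈ Ioo a₁ b₁) (ht₂ : t₀ ∈ Ioo a₂ b₂)
    (h : γ₁ t₀ = γ₂ t₀) :
    ∃ γ, Sol X Ω γ (min a₁ a₂) (max b₁ b₂) ∧ EqOn γ γ₁ (Ioo a₁ b₁) ∧
      EqOn γ γ₂ (Ioo a₂ b₂) := by
  classical
  have e1 : EqOn ((Ioo a₁ b₁).piecewise γ₁ γ₂) γ₁ (Ioo a₁ b₁) := piecewise_eqOn _ _ _
  have e12 : EqOn γ₁ γ₂ (Ioo (max a₁ a₂) (min b₁ b₂)) :=
    Sol.eqOn hΩ hX (h₁.mono (le_max_left _ _) (min_le_left _ _))
      (h₂.mono (le_max_right _ _) (min_le_right _ _))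
      ⟨max_lt ht₁.1 ht₂.1, lt_min ht₁.2 ht₂.2⟩ h
  have e2 : EqOn ((Ioo a₁ b₁).piecewise γ₁ γ₂) γ₂ (Ioo a₂ b₂) := by
    intro s hs
    by_cases hs1 : s ∈ Ioo a₁ b₁
    · rw [piecewise_eq_of_mem _ _ _ hs1]
      exact e12 ⟨max_lt hs1.1 hs.1, lt_min hs1.2 hs.2⟩
    · rw [piecewise_eq_of_notMem _ _ _ hs1]
  refine ⟨_, ?_, e1, e2⟩
  intro s hs
  have hcase : s ∈ Ioo a₁ b₁ ∨ s ∈ Ioo a₂ b₂ := by
    by_contra hcon
    push Not at hcon
    obtain ⟨n1, n2⟩ := hcon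
    simp only [mem_Ioo, not_and_or, not_lt] at n1 n2
    have m1 := hs.1
    have m2 := hs.2
    rw [min_lt_iff] at m1
    rw [lt_max_iff] at m2
    have := ht₁.1; have := ht₁.2; have := ht₂.1; have := ht₂.2
    rcases n1 with n1 | n1 <;> rcases n2 with n2 | n2 <;> rcases m1 with m1 | m1 <;>
      rcases m2 with m2 | m2 <;> linarith
  rcases hcase with hs' | hs'
  · have hev : (Ioo a₁ b₁).piecewise γ₁ γ₂ =ᶠ[𝓝 s] γ₁ := by
      filter_upwards [Ioo_mem_nhds hs'.1 hs'.2] with x hx using e1 hx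
    rw [e1 hs']
    exact ⟨(h₁ s hs').1, (h₁ s hs').2.congr_of_eventuallyEq hev⟩
  · have hev : (Ioo a₁ b₁).piecewise γ₁ γ₂ =ᶠ[𝓝 s] γ₂ := by
      filter_upwards [Ioo_mem_nhds hs'.1 hs'.2] with x hx using e2 hx
    rw [e2 hs']
    exact ⟨(h₂ s hs').1, (h₂ s hs').2.congr_of_eventuallyEq hev⟩

theorem Conn.left_mem (h : Conn X Ω u t v) : u ∈ Ω := by
  obtain ⟨γ, a, b, ha, hb, -, -, h0, -, hs⟩ := h
  rw [← h0]; exact (hs 0 ⟨ha, hb⟩).1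

theorem Conn.right_mem (h : Conn X Ω u t v) : v ∈ Ω := by
  obtain ⟨γ, a, b, -, -, ha, hb, -, h0, hs⟩ := h
  rw [← h0]; exact (hs t ⟨ha, hb⟩).1

theorem Conn.symm (h : Conn X Ω u t v) : Conn X Ω v (-t) u := by
  obtain ⟨γ, a, b, ha0, hb0, ha, hb, h0, ht, hs⟩ := h
  refine ⟨fun s => γ (s + t), a - t, b - t, by linarith, by linarith, by linarith, by linarith,
    ?_, ?_, hs.shift t⟩
  · simp only [zero_add]; exact ht
  · simp only [neg_add_cancel]; exact h0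

theorem Conn.trans (hΩ : IsOpen Ω) (hX : ContDiffOn ℝ 1 X Ω) (h₁ : Conn X Ω u t v)
    (h₂ : Conn X Ω v s w) : Conn X Ω u (t + s) w := by
  obtain ⟨γ₁, a₁, b₁, ha0, hb0, ha, hb, h0, ht, hs⟩ := h₁
  obtain ⟨γ₂, a₂, b₂, ha0', hb0', ha', hb', h0', ht', hs'⟩ := h₂
  have hs2 := hs'.shift (-t)
  simp only [sub_neg_eq_add] at hs2
  obtain ⟨γ, hγ, e1, e2⟩ := Sol.glue hΩ hX hs hs2 (t₀ := t) ⟨ha, hb⟩
    ⟨by linarith, by linarith⟩ (by simp only [add_neg_cancel]; rw [ht, h0'])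
  refine ⟨γ, min a₁ (a₂ + t), max b₁ (b₂ + t), ?_, ?_, ?_, ?_, ?_, ?_, hγ⟩
  · exact (min_le_left _ _).trans_lt ha0
  · exact hb0.trans_le (le_max_left _ _)
  · exact (min_le_right _ _).trans_lt (by linarith)
  · exact lt_of_lt_of_le (by linarith) (le_max_right _ _)
  · rw [e1 ⟨ha0, hb0⟩, h0]
  · rw [e2 ⟨by linarith, by linarith⟩]
    simp only [add_neg_cancel_comm]
    exact ht'

theorem Conn.unique (hΩ : IsOpen Ω) (hX : ContDiffOn ℝ 1 X Ω) (h₁ : Conn X Ω u t v)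
    (h₂ : Conn X Ω u t w) : v = w := by
  obtain ⟨γ₁, a₁, b₁, ha0, hb0, ha, hb, h0, ht, hs⟩ := h₁
  obtain ⟨γ₂, a₂, b₂, ha0', hb0', ha', hb', h0', ht', hs'⟩ := h₂
  have e := Sol.eqOn hΩ hX (hs.mono (le_max_left a₁ a₂) (min_le_left b₁ b₂))
    (hs'.mono (le_max_right a₁ a₂) (min_le_right b₁ b₂)) (t₀ := 0)
    ⟨max_lt ha0 ha0', lt_min hb0 hb0'⟩ (by rw [h0, h0'])
  rw [← ht, ← ht']
  exact e ⟨max_lt ha ha', lt_min hb hb'⟩

theorem Conn.split (h : Conn X Ω u t v) (hs : s ∈ uIcc 0 t) :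
    ∃ w, Conn X Ω u s w ∧ Conn X Ω w (t - s) v := by
  obtain ⟨γ, a, b, ha0, hb0, ha, hb, h0, ht, hsol⟩ := h
  rw [mem_uIcc] at hs
  have has : a < s := by rcases hs with hs | hs <;> linarith [hs.1, hs.2]
  have hbs : s < b := by rcases hs with hs | hs <;> linarith [hs.1, hs.2]
  refine ⟨γ s, ⟨γ, a, b, ha0, hb0, has, hbs, h0, rfl, hsol⟩, ?_⟩
  refine ⟨fun x => γ (x + s), a - s, b - s, by linarith, by linarith, by linarith, by linarith,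
    by simp, ?_, hsol.shift s⟩
  simp only [sub_add_cancel]
  exact ht

theorem contDiff_of_tsupport' {F : Type u} [NormedAddCommGroup F] [NormedSpace ℝ F]
    {n : ℕ∞ω} {f : E → F} (h : ∀ x ∈ tsupport f, ContDiffAt ℝ n f x) : ContDiff ℝ n f := by
  rw [contDiff_iff_contDiffAt]
  intro x
  by_cases hx : x ∈ tsupport f
  · exact h x hx
  · rw [notMem_tsupport_iff_eventuallyEq] at hx
    exact contDiffAt_const.congr_of_eventuallyEq hx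

/-- Smooth cutoff of a vector field. -/
theorem exists_cutoff [FiniteDimensional ℝ E] (hΩ : IsOpen Ω) (m : ℕ) (hX : ContDiffOn ℝ m X Ω)
    {v₀ : E} (hv₀ : v₀ ∈ Ω) :
    ∃ (Y : C(E, E)) (r : ℝ), 0 < r ∧ ContDiff ℝ m Y ∧ ball v₀ r ⊆ Ω ∧
      ∀ x ∈ ball v₀ r, Y x = X x := by
  obtain ⟨R, hR, hRΩ⟩ := Metric.isOpen_iff.1 hΩ v₀ hv₀
  let f : ContDiffBump v₀ := ⟨R / 4, R / 2, by positivity, by linarith⟩
  have hsm : ContDiff ℝ m (fun x => f x • X x) := by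
    apply contDiff_of_tsupport'
    intro x hx
    have hx1 : x ∈ tsupport f := tsupport_smul_subset_left (f := f) (g := X) hx
    rw [f.tsupport_eq] at hx1
    have hx2 : x ∈ Ω := hRΩ (closedBall_subset_ball (by show R / 2 < R; linarith) hx1)
    exact f.contDiff.contDiffAt.smul (hX.contDiffAt (hΩ.mem_nhds hx2))
  refine ⟨⟨fun x => f x • X x, hsm.continuous⟩, R / 4, by positivity, hsm,
    (ball_subset_ball (by linarith)).trans hRΩ, ?_⟩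
  intro x hx
  have h1 : f x = 1 := f.one_of_mem_closedBall (ball_subset_closedBall hx)
  simp [h1]

theorem exists_local_flow [FiniteDimensional ℝ E] (hΩ : IsOpen Ω) (m : ℕ) (hm : m ≠ 0)
    (hX : ContDiffOn ℝ m X Ω) {v₀ : E} (hv₀ : v₀ ∈ Ω) :
    ∃ ε > 0, ∃ r > 0, ∃ f : ℝ × E → E, ∀ t ∈ Ioo (-ε) ε, ∀ u ∈ ball v₀ r,
      ContDiffAt ℝ m f (t, u) ∧ Conn X Ω u t (f (t, u)) := by
  obtain ⟨Y, R, hR, hY, hRΩ, hYX⟩ := exists_cutoff hΩ m hX hv₀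
  obtain ⟨g, hg0, hg1, hg2⟩ := local_flow_aux m hm Y hY v₀
  have hg3 : ∀ᶠ p in 𝓝 ((0 : ℝ), v₀), ContDiffAt ℝ m g p :=
    hg1.eventually (by exact_mod_cast WithTop.coe_ne_top)
  have hg4 : ∀ᶠ p in 𝓝 ((0 : ℝ), v₀), g p ∈ ball (constL E v₀) R := by
    have : Tendsto g (𝓝 ((0 : ℝ), v₀)) (𝓝 (constL E v₀)) := by
      have h := hg1.continuousAt
      rw [ContinuousAt, hg0] at h
      exact h
    exact this.eventually (Metric.ball_mem_nhds _ hR)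
  have hall := (hg2.and (hg3.and hg4))
  rw [nhds_prod_eq] at hall
  obtain ⟨P, hP, Q, hQ, hPQ⟩ := Filter.eventually_prod_iff.1 hall
  obtain ⟨δ, hδ, hδP⟩ := Metric.eventually_nhds_iff_ball.1 hP
  obtain ⟨r, hr, hrQ⟩ := Metric.eventually_nhds_iff_ball.1 hQ
  -- the basic connection statement
  have hconn : ∀ s : ℝ, s ≠ 0 → |s| < δ → ∀ u ∈ ball v₀ r, ∀ t ∈ Ioo (-|s|) |s|,
      Conn X Ω u t (g (s, u) (prI (t / s))) := by
    intro s hs hsδ u hu t ht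
    have h1 := hPQ (hδP s (by rw [mem_ball, Real.dist_eq, sub_zero]; exact hsδ)) (hrQ u hu)
    obtain ⟨f1, f2, f3⟩ := h1
    simp only at f1
    obtain ⟨k1, k2⟩ := solution_of_fixed Y (g (s, u)) u s hs f1
    have hs' : 0 < |s| := abs_pos.2 hs
    refine ⟨fun τ => g (s, u) (prI (τ / s)), -|s|, |s|, by linarith, hs', ht.1, ht.2, k1, rfl, ?_⟩
    intro τ hτ
    have hmem : g (s, u) (prI (τ / s)) ∈ ball v₀ R := by
      have h2 := ContinuousMap.dist_apply_le_dist (f := g (s, u)) (g := constL E v₀) (prI (τ / s))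
      rw [mem_ball]
      rw [mem_ball] at f3
      exact lt_of_le_of_lt h2 f3
    have h3 := k2 τ hτ
    rw [hYX _ hmem] at h3
    exact ⟨hRΩ hmem, h3⟩
  refine ⟨δ / 2, by positivity, r, hr, fun p => g (2 * p.1, p.2) (prI (1 / 2)), ?_⟩
  intro t ht u hu
  have ht2 : |2 * t| < δ := by
    rw [abs_lt]; constructor <;> [linarith [ht.1]; linarith [ht.2]]
  constructor
  · have h1 := hPQ (hδP (2 * t) (by rw [mem_ball, Real.dist_eq, sub_zero]; exact ht2)) (hrQ u hu)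
    have h2 : ContDiffAt ℝ m g (2 * t, u) := h1.2.1
    have h3 : ContDiffAt ℝ m (fun p : ℝ × E => ((2 * p.1, p.2) : ℝ × E)) (t, u) :=
      ((contDiff_const.mul contDiff_fst).prodMk contDiff_snd).contDiffAt
    have h4 : ContDiffAt ℝ m (fun p : ℝ × E => g (2 * p.1, p.2)) (t, u) :=
      ContDiffAt.comp (g := g) (t, u) h2 h3
    have h5 : ContDiffAt ℝ m (fun c : C(KI, E) => ContinuousMap.evalCLM ℝ (prI (1 / 2)) c)
        (g (2 * t, u)) :=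
      (ContinuousLinearMap.contDiff (𝕜 := ℝ) (E := C(KI, E)) (F := E)
        (ContinuousMap.evalCLM ℝ (prI (1 / 2)))).contDiffAt
    exact ContDiffAt.comp (g := fun c : C(KI, E) => ContinuousMap.evalCLM ℝ (prI (1 / 2)) c)
      (f := fun p : ℝ × E => g (2 * p.1, p.2)) (t, u) h5 h4
  · by_cases ht0 : t = 0
    · subst ht0
      have h1 := hconn (δ / 2) (by positivity) (by rw [abs_of_pos (by positivity)]; linarith) u hu 0
        (by rw [abs_of_pos (by positivity)]; constructor <;> linarith)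
      -- value at zero
      have h2 := hPQ (hδP (2 * 0) (by rw [mem_ball, Real.dist_eq, sub_zero]; exact ht2)) (hrQ u hu)
      have h3 : g (2 * 0, u) = constL E u + (2 * 0 : ℝ) • intOp E (Y.comp (g (2 * 0, u))) := h2.1
      have h4 : g (2 * 0, u) (prI (1 / 2)) = u := by
        rw [h3]; simp
      have h5 := hPQ (hδP (δ / 2) (by
        rw [mem_ball, Real.dist_eq, sub_zero, abs_of_pos (by positivity)]; linarith)) (hrQ u hu)
      have h6 := (solution_of_fixed Y (g (δ / 2, u)) u (δ / 2) (by positivity) h5.1).1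
      simp only
      rw [h4]
      rw [h6] at h1
      exact h1
    · have h1 := hconn (2 * t) (by simpa using ht0) ht2 u hu t (by
        have : 0 < |t| := abs_pos.2 ht0
        have h2 : |2 * t| = 2 * |t| := by rw [abs_mul]; norm_num
        rw [h2]
        constructor
        · linarith [neg_abs_le t]
        · linarith [le_abs_self t])
      have h2 : t / (2 * t) = 1 / 2 := by field_simp
      rw [h2] at h1
      exact h1

/-- Local smooth extension property of the flow at `(t, u)`. -/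
def SmoothAt (X : E → E) (Ω : Set E) (m : ℕ) (u : E) (t : ℝ) : Prop :=
  ∃ f : ℝ × E → E, ContDiffAt ℝ m f (t, u) ∧ ∀ᶠ p in 𝓝 (t, u), Conn X Ω p.2 p.1 (f p)

theorem smooth_step (hΩ : IsOpen Ω) (m : ℕ) (hX1 : ContDiffOn ℝ 1 X Ω) {v₀ : E} {ε r : ℝ}
    {f₀ : ℝ × E → E} (hf₀ : ∀ t ∈ Ioo (-ε) ε, ∀ u ∈ ball v₀ r,
      ContDiffAt ℝ m f₀ (t, u) ∧ Conn X Ω u t (f₀ (t, u)))
    {u : E} {τ₁ τ₂ : ℝ} (hτ : τ₂ - τ₁ ∈ Ioo (-ε) ε) {w : E} (hw : w ∈ ball v₀ r)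
    (hc : Conn X Ω u τ₁ w) (h : SmoothAt X Ω m u τ₁) : SmoothAt X Ω m u τ₂ := by
  obtain ⟨f₁, h1, h2⟩ := h
  have h2' := h2.self_of_nhds
  have hval : f₁ (τ₁, u) = w := Conn.unique hΩ hX1 h2' hc
  have hcd : ContDiffAt ℝ m (fun p : ℝ × E => ((p.1 - τ₁, f₁ (τ₁, p.2)) : ℝ × E)) (τ₂, u) := by
    have e1 : ContDiffAt ℝ m (fun p : ℝ × E => p.1 - τ₁) (τ₂, u) :=
      (contDiff_fst.sub contDiff_const).contDiffAt
    have e2 : ContDiffAt ℝ m (fun p : ℝ × E => ((τ₁, p.2) : ℝ × E)) (τ₂, u) :=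
      (contDiff_const.prodMk contDiff_snd).contDiffAt
    have e3 : ContDiffAt ℝ m (fun p : ℝ × E => f₁ (τ₁, p.2)) (τ₂, u) :=
      ContDiffAt.comp (g := f₁) (τ₂, u) h1 e2
    exact e1.prodMk e3
  refine ⟨fun p => f₀ (p.1 - τ₁, f₁ (τ₁, p.2)), ?_, ?_⟩
  · have h3 : ContDiffAt ℝ m f₀ (τ₂ - τ₁, f₁ (τ₁, u)) := by
      rw [hval]; exact (hf₀ _ hτ _ hw).1
    exact ContDiffAt.comp (g := f₀) (f := fun p : ℝ × E => ((p.1 - τ₁, f₁ (τ₁, p.2)) : ℝ × E))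
      (τ₂, u) h3 hcd
  · have hcont : ContinuousAt (fun p : ℝ × E => ((p.1 - τ₁, f₁ (τ₁, p.2)) : ℝ × E)) (τ₂, u) :=
      hcd.continuousAt
    have hmem : Ioo (-ε) ε ×ˢ ball v₀ r ∈ 𝓝 ((τ₂ - τ₁, f₁ (τ₁, u)) : ℝ × E) :=
      (isOpen_Ioo.prod isOpen_ball).mem_nhds ⟨hτ, by rw [hval]; exact hw⟩
    have h4 : ∀ᶠ p : ℝ × E in 𝓝 (τ₂, u),
        ((p.1 - τ₁, f₁ (τ₁, p.2)) : ℝ × E) ∈ Ioo (-ε) ε ×ˢ ball v₀ r :=
      hcont.eventually hmem
    have h5 : ∀ᶠ p : ℝ × E in 𝓝 (τ₂, u), Conn X Ω p.2 τ₁ (f₁ (τ₁, p.2)) := by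
      have hc2 : ContinuousAt (fun p : ℝ × E => ((τ₁, p.2) : ℝ × E)) (τ₂, u) := by fun_prop
      exact hc2.eventually h2
    filter_upwards [h4, h5] with p hp1 hp2
    have h6 := Conn.trans hΩ hX1 hp2 (hf₀ _ hp1.1 _ hp1.2).2
    simpa using h6

theorem Conn.smoothAt [FiniteDimensional ℝ E] (hΩ : IsOpen Ω) (m : ℕ) (hm : m ≠ 0)
    (hX : ContDiffOn ℝ m X Ω) (h : Conn X Ω u t v) : SmoothAt X Ω m u t := by
  have hX1 : ContDiffOn ℝ 1 X Ω := hX.of_le (by exact_mod_cast Nat.one_le_iff_ne_zero.2 hm)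
  have hu : u ∈ Ω := h.left_mem
  obtain ⟨γ, a, b, ha0, hb0, ha, hb, h0, ht, hsol⟩ := h
  have hconn : ∀ s ∈ Ioo a b, Conn X Ω u s (γ s) := fun s hs =>
    ⟨γ, a, b, ha0, hb0, hs.1, hs.2, h0, rfl, hsol⟩
  have hP0 : SmoothAt X Ω m u 0 := by
    obtain ⟨ε, hε, r, hr, f, hf⟩ := exists_local_flow hΩ m hm hX hu
    refine ⟨f, (hf 0 ⟨by linarith, hε⟩ u (mem_ball_self hr)).1, ?_⟩
    have hmem : Ioo (-ε) ε ×ˢ ball u r ∈ 𝓝 (((0 : ℝ), u) : ℝ × E) :=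
      (isOpen_Ioo.prod isOpen_ball).mem_nhds ⟨⟨by linarith, hε⟩, mem_ball_self hr⟩
    filter_upwards [hmem] with p hp
    exact (hf p.1 hp.1 p.2 hp.2).2
  have key : SmoothAt X Ω m u 0 → SmoothAt X Ω m u t := by
    refine isPreconnected_Ioo.induction₂' (s := Ioo a b)
      (fun x y => SmoothAt X Ω m u x → SmoothAt X Ω m u y) ?_ ?_ ⟨ha0, hb0⟩ ⟨ha, hb⟩
    · intro τ hτ
      have hv₀ : γ τ ∈ Ω := (hsol τ hτ).1
      obtain ⟨ε, hε, r, hr, f, hf⟩ := exists_local_flow hΩ m hm hX hv₀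
      have e1 : ∀ᶠ y in 𝓝 τ, γ y ∈ ball (γ τ) r :=
        (hsol.continuousAt hτ).eventually (ball_mem_nhds _ hr)
      have e2 : ∀ᶠ y in 𝓝 τ, y ∈ ball τ ε := ball_mem_nhds _ hε
      have e3 : ∀ᶠ y in 𝓝 τ, y ∈ Ioo a b := Ioo_mem_nhds hτ.1 hτ.2
      refine Filter.Eventually.filter_mono nhdsWithin_le_nhds ?_
      filter_upwards [e1, e2, e3] with y hy1 hy2 hy3
      rw [mem_ball, Real.dist_eq] at hy2
      have hy4 := abs_lt.1 hy2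
      constructor
      · intro hh
        exact smooth_step hΩ m hX1 hf ⟨hy4.1, hy4.2⟩ (mem_ball_self hr) (hconn τ hτ) hh
      · intro hh
        exact smooth_step hΩ m hX1 hf ⟨by linarith, by linarith⟩ hy1 (hconn y hy3) hh
    · intro x y z _ _ _ h1 h2 h3
      exact h2 (h1 h3)
  exact key hP0

open Classical in
/-- The flow map: `fl X Ω (t, u)` is the value at time `t` of the solution started at `u`. -/
noncomputable def fl (X : E → E) (Ω : Set E) (p : ℝ × E) : E :=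
  if h : ∃ v, Conn X Ω p.2 p.1 v then h.choose else p.2

theorem conn_fl {p : ℝ × E} (h : ∃ v, Conn X Ω p.2 p.1 v) :
    Conn X Ω p.2 p.1 (fl X Ω p) := by
  unfold fl
  rw [dif_pos h]
  exact h.choose_spec

theorem Conn.fl_eq (hΩ : IsOpen Ω) (hX : ContDiffOn ℝ 1 X Ω) (h : Conn X Ω u t v) :
    fl X Ω (t, u) = v :=
  Conn.unique hΩ hX (conn_fl (p := (t, u)) ⟨v, h⟩) h

theorem Conn.eventually_conn_fl [FiniteDimensional ℝ E] (hΩ : IsOpen Ω)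
    (hX : ContDiffOn ℝ 1 X Ω) (h : Conn X Ω u t v) :
    ∀ᶠ p in 𝓝 (t, u), Conn X Ω p.2 p.1 (fl X Ω p) := by
  obtain ⟨f, -, h2⟩ := h.smoothAt hΩ 1 one_ne_zero (by exact_mod_cast hX)
  filter_upwards [h2] with p hp
  exact conn_fl ⟨_, hp⟩

theorem Conn.contDiffAt_fl [FiniteDimensional ℝ E] (hΩ : IsOpen Ω)
    (hX : ContDiffOn ℝ ∞ X Ω) (h : Conn X Ω u t v) : ContDiffAt ℝ ∞ (fl X Ω) (t, u) := by
  rw [contDiffAt_infty]
  intro n
  have hX1 : ContDiffOn ℝ 1 X Ω := hX.of_le (by exact_mod_cast le_top)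
  obtain ⟨f, h1, h2⟩ := h.smoothAt hΩ (n + 1) (Nat.succ_ne_zero n)
    (hX.of_le (by exact_mod_cast le_top))
  have h3 : fl X Ω =ᶠ[𝓝 (t, u)] f := by
    filter_upwards [h2] with p hp
    exact Conn.unique hΩ hX1 (conn_fl ⟨_, hp⟩) hp
  exact (h1.of_le (by exact_mod_cast Nat.le_succ n)).congr_of_eventuallyEq h3

theorem Conn.continuousAt_fl [FiniteDimensional ℝ E] (hΩ : IsOpen Ω)
    (hX : ContDiffOn ℝ 1 X Ω) (h : Conn X Ω u t v) : ContinuousAt (fl X Ω) (t, u) := by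
  obtain ⟨f, h1, h2⟩ := h.smoothAt hΩ 1 one_ne_zero (by exact_mod_cast hX)
  have h3 : fl X Ω =ᶠ[𝓝 (t, u)] f := by
    filter_upwards [h2] with p hp
    exact Conn.unique hΩ hX (conn_fl ⟨_, hp⟩) hp
  exact h1.continuousAt.congr h3.symm

theorem conn_zero [FiniteDimensional ℝ E] (hΩ : IsOpen Ω) (hX : ContDiffOn ℝ 1 X Ω)
    (hu : u ∈ Ω) : Conn X Ω u 0 u := by
  obtain ⟨ε, hε, r, hr, f, hf⟩ := exists_local_flow hΩ 1 one_ne_zero (by exact_mod_cast hX) hu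
  have h := (hf 0 ⟨by linarith, hε⟩ u (mem_ball_self hr)).2
  obtain ⟨γ, a, b, ha0, hb0, -, -, h0, -, hs⟩ := h
  exact ⟨γ, a, b, ha0, hb0, ha0, hb0, h0, h0, hs⟩

theorem Conn.hasDerivAt_fl (hΩ : IsOpen Ω) (hX : ContDiffOn ℝ 1 X Ω) (h : Conn X Ω u t v) :
    HasDerivAt (fun s => fl X Ω (s, u)) (X v) t := by
  obtain ⟨γ, a, b, ha0, hb0, ha, hb, h0, ht, hsol⟩ := h
  have hev : (fun s => fl X Ω (s, u)) =ᶠ[𝓝 t] γ := by
    filter_upwards [Ioo_mem_nhds ha hb] with s hs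
    have hc : Conn X Ω u s (γ s) := ⟨γ, a, b, ha0, hb0, hs.1, hs.2, h0, rfl, hsol⟩
    exact hc.fl_eq hΩ hX
  have h1 := (hsol t ⟨ha, hb⟩).2
  rw [ht] at h1
  exact h1.congr_of_eventuallyEq hev

theorem exists_uniform_time [FiniteDimensional ℝ E] (hΩ : IsOpen Ω) (hX : ContDiffOn ℝ 1 X Ω)
    {K : Set E} (hK : IsCompact K) (hKΩ : K ⊆ Ω) :
    ∃ ε > 0, ∀ v ∈ K, ∀ s ∈ Ioo (-ε) ε, ∃ w, Conn X Ω v s w := by
  refine hK.induction_on (p := fun S => ∃ ε > 0, ∀ v ∈ S, ∀ s ∈ Ioo (-ε) ε, ∃ w, Conn X Ω v s w)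
    ⟨1, one_pos, by simp⟩ ?_ ?_ ?_
  · rintro S T hST ⟨ε, hε, h⟩
    exact ⟨ε, hε, fun v hv => h v (hST hv)⟩
  · rintro S T ⟨ε, hε, h⟩ ⟨δ, hδ, h'⟩
    refine ⟨min ε δ, lt_min hε hδ, ?_⟩
    intro v hv s hs
    have hs1 : s ∈ Ioo (-ε) ε := ⟨by linarith [hs.1, min_le_left ε δ],
      hs.2.trans_le (min_le_left _ _)⟩
    have hs2 : s ∈ Ioo (-δ) δ := ⟨by linarith [hs.1, min_le_right ε δ],
      hs.2.trans_le (min_le_right _ _)⟩
    rcases hv with hv | hv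
    · exact h v hv s hs1
    · exact h' v hv s hs2
  · intro v hv
    obtain ⟨ε, hε, r, hr, f, hf⟩ :=
      exists_local_flow hΩ 1 one_ne_zero (by exact_mod_cast hX) (hKΩ hv)
    refine ⟨ball v r, mem_nhdsWithin_of_mem_nhds (ball_mem_nhds _ hr), ε, hε, ?_⟩
    intro w hw s hs
    exact ⟨_, (hf s hs w hw).2⟩

/-- Blow-up alternative. -/
theorem exists_blowup [FiniteDimensional ℝ E] (hΩ : IsOpen Ω) (hX : ContDiffOn ℝ 1 X Ω)
    (hu : u ∈ Ω) (ht : 0 ≤ t) (hno : ¬ ∃ v, Conn X Ω u t v) :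
    ∃ T, 0 < T ∧ T ≤ t ∧ (¬ ∃ v, Conn X Ω u T v) ∧
      (∀ s ∈ Ico 0 T, Conn X Ω u s (fl X Ω (s, u))) ∧
      ∀ K, IsCompact K → K ⊆ Ω → ∃ s ∈ Ico 0 T, fl X Ω (s, u) ∉ K := by
  set S : Set ℝ := {s | s ∈ Icc 0 t ∧ ∃ v, Conn X Ω u s v} with hS
  have h0S : (0 : ℝ) ∈ S := ⟨⟨le_rfl, ht⟩, u, conn_zero hΩ hX hu⟩
  have hbdd : BddAbove S := ⟨t, fun s hs => hs.1.2⟩
  set T := sSup S with hT
  have hTt : T ≤ t := csSup_le ⟨0, h0S⟩ fun s hs => hs.1.2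
  have hT0 : 0 ≤ T := le_csSup hbdd h0S
  have hlt : ∀ s ∈ Ico 0 T, Conn X Ω u s (fl X Ω (s, u)) := by
    intro s hs
    obtain ⟨s', hs', hss'⟩ := exists_lt_of_lt_csSup ⟨0, h0S⟩ hs.2
    obtain ⟨v, hv⟩ := hs'.2
    obtain ⟨w, hw, -⟩ := hv.split (s := s) (by
      rw [uIcc_of_le hs'.1.1]; exact ⟨hs.1, hss'.le⟩)
    exact conn_fl (p := (s, u)) ⟨w, hw⟩
  -- beyond any time of existence in `[0,t]` there is a later one
  have hbeyond : ∀ s, 0 ≤ s → ∀ δ > 0, (∃ v, Conn X Ω u s v) → (∀ σ ∈ Ioo 0 δ, ∃ v, Conn X Ω u (s + σ) v) →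
      s + δ ≤ T := by
    intro s hs δ hδ hv hδv
    by_contra hcon
    push Not at hcon
    -- every time `s + σ`, `σ < δ` is `≤ t`
    have hst : s + δ ≤ t := by
      by_contra hcon2
      push Not at hcon2
      rcases le_or_gt t s with h1 | h1
      · obtain ⟨v, hv⟩ := hv
        obtain ⟨w, hw, -⟩ := hv.split (s := t) (by rw [uIcc_of_le hs]; exact ⟨ht, h1⟩)
        exact hno ⟨w, hw⟩
      · obtain ⟨v, hv⟩ := hδv (t - s) ⟨by linarith, by linarith⟩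
        rw [add_sub_cancel] at hv
        exact hno ⟨v, hv⟩
    have hmem : ∀ σ ∈ Ioo 0 δ, s + σ ≤ T := by
      intro σ hσ
      exact le_csSup hbdd ⟨⟨by linarith [hσ.1], by linarith [hσ.2]⟩, hδv σ hσ⟩
    rcases le_or_gt T s with h1 | h1
    · have := hmem (δ / 2) ⟨by positivity, by linarith⟩
      linarith
    · have h2 := hmem ((T - s + δ) / 2) ⟨by linarith, by linarith⟩
      linarith
  have huniv : ∀ K, IsCompact K → K ⊆ Ω → (∀ s ∈ Ico 0 T, fl X Ω (s, u) ∈ K) → T = 0 := by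
    intro K hK hKΩ hall
    by_contra hne
    have hTpos : 0 < T := lt_of_le_of_ne hT0 (Ne.symm hne)
    obtain ⟨ε, hε, hε'⟩ := exists_uniform_time hΩ hX hK hKΩ
    set s := max 0 (T - ε / 2) with hs
    have hsT : s < T := max_lt hTpos (by linarith)
    have hs0 : 0 ≤ s := le_max_left _ _
    have hsc := hlt s ⟨hs0, hsT⟩
    have h1 := hbeyond s hs0 ε hε ⟨_, hsc⟩ (by
      intro σ hσ
      obtain ⟨w, hw⟩ := hε' _ (hall s ⟨hs0, hsT⟩) σ ⟨by linarith [hσ.1], hσ.2⟩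
      exact ⟨w, Conn.trans hΩ hX hsc hw⟩)
    have h2 : T - ε / 2 ≤ s := le_max_right _ _
    linarith
  have hTpos : 0 < T := by
    obtain ⟨ε, hε, hε'⟩ := exists_uniform_time hΩ hX (isCompact_singleton (x := u))
      (by simpa using hu)
    have h1 := hbeyond 0 le_rfl ε hε ⟨u, conn_zero hΩ hX hu⟩ (by
      intro σ hσ
      rw [zero_add]
      exact hε' u rfl σ ⟨by linarith [hσ.1], hσ.2⟩)
    linarith
  refine ⟨T, hTpos, hTt, ?_, hlt, ?_⟩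
  · rintro ⟨v, hv⟩
    obtain ⟨ε, hε, hε'⟩ := exists_uniform_time hΩ hX (isCompact_singleton (x := v))
      (by simpa using hv.right_mem)
    have h1 := hbeyond T hT0 ε hε ⟨v, hv⟩ (by
      intro σ hσ
      obtain ⟨w, hw⟩ := hε' v rfl σ ⟨by linarith [hσ.1], hσ.2⟩
      exact ⟨w, Conn.trans hΩ hX hv hw⟩)
    linarith
  · intro K hK hKΩ
    by_contra hcon
    push Not at hcon
    exact hTpos.ne' (huniv K hK hKΩ hcon)

end Pool.Agent.H99
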