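import Pool.Agent.Lib.helper99.Superposition

/-!
Local solutions of `y' = X y` depending smoothly on time and the initial value
(via the implicit function theorem on `C([-1,1], E)`).
-/

open scoped Topology ContDiff
open Set Filter Metric

namespace Pool.Agent.H99

universe u

/-- The time interval. -/
abbrev KI := Icc (-1 : ℝ) 1

/-- Projection onto the time interval. -/
noncomputable def prI (x : ℝ) : KI := projIcc (-1 : ℝ) 1 (by norm_num) x

theorem continuous_prI : Continuous prI := continuous_projIcc (h := by norm_num)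

section

variable (E : Type u) [NormedAddCommGroup E] [NormedSpace ℝ E]

/-- The integration operator on `C([-1,1], E)`. -/
noncomputable def intOp : C(KI, E) →L[ℝ] C(KI, E) :=
  LinearMap.mkContinuous
    { toFun := fun γ => ⟨fun θ => ∫ x in (0 : ℝ)..θ, γ (prI x), by
        have h : Continuous (fun x : ℝ => γ (prI x)) := γ.continuous.comp continuous_prI
        have h2 : Continuous (fun b : ℝ => ∫ x in (0 : ℝ)..b, γ (prI x)) :=
          intervalIntegral.continuous_primitive (fun a b => h.intervalIntegrable a b) 0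
        exact h2.comp continuous_subtype_val⟩
      map_add' := by
        intro γ δ
        ext θ
        have h : Continuous (fun x : ℝ => γ (prI x)) := γ.continuous.comp continuous_prI
        have h' : Continuous (fun x : ℝ => δ (prI x)) := δ.continuous.comp continuous_prI
        have e : ∫ x in (0 : ℝ)..θ, (γ (prI x) + δ (prI x)) =
          (∫ x in (0 : ℝ)..θ, γ (prI x)) + ∫ x in (0 : ℝ)..θ, δ (prI x) :=
          intervalIntegral.integral_add (h.intervalIntegrable _ _) (h'.intervalIntegrable _ _)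
        simpa using e
      map_smul' := by
        intro c γ
        ext θ
        have e : ∫ x in (0 : ℝ)..θ, c • γ (prI x) = c • ∫ x in (0 : ℝ)..θ, γ (prI x) :=
          intervalIntegral.integral_smul c _
        simp } 1 (by
      intro γ
      rw [one_mul]
      refine (ContinuousMap.norm_le _ (norm_nonneg γ)).2 fun θ => ?_
      have h := intervalIntegral.norm_integral_le_of_norm_le_const (a := 0) (b := (θ : ℝ))
        (f := fun x : ℝ => γ (prI x)) (C := ‖γ‖) (fun x _ => γ.norm_coe_le_norm (prI x))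
      refine h.trans ?_
      have h1 : |(θ : ℝ) - 0| ≤ 1 := by
        rw [sub_zero, abs_le]; exact ⟨θ.2.1, θ.2.2⟩
      calc ‖γ‖ * |(θ : ℝ) - 0| ≤ ‖γ‖ * 1 := mul_le_mul_of_nonneg_left h1 (norm_nonneg γ)
        _ = ‖γ‖ := mul_one _)

theorem intOp_apply (γ : C(KI, E)) (θ : KI) :
    intOp E γ θ = ∫ x in (0 : ℝ)..θ, γ (prI x) := rfl

/-- Constant functions. -/
noncomputable def constL : E →L[ℝ] C(KI, E) where
  toFun := ContinuousMap.const KI
  map_add' := by intro x y; ext t; simp
  map_smul' := by intro c x; ext t; simp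
  cont := ContinuousMap.continuous_const'

@[simp] theorem constL_apply (v : E) (θ : KI) : constL E v θ = v := rfl

end

variable {E : Type u} [NormedAddCommGroup E] [NormedSpace ℝ E]

/-- The equation `γ = u + s ∫ X(γ)`. -/
noncomputable def Phi (X : C(E, E)) (p : (ℝ × E) × C(KI, E)) : C(KI, E) :=
  p.2 - constL E p.1.2 - p.1.1 • intOp E (X.comp p.2)

theorem contDiff_Phi (m : ℕ) (X : C(E, E)) (hX : ContDiff ℝ m X) : ContDiff ℝ m (Phi X) := by
  have h1 : ContDiff ℝ m (fun γ : C(KI, E) => X.comp γ) := contDiff_comp_nat m X hX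
  have h2 : ContDiff ℝ m (fun γ : C(KI, E) => intOp E (X.comp γ)) :=
    ContDiff.comp (g := fun γ : C(KI, E) => intOp E γ) (f := fun γ : C(KI, E) => X.comp γ)
      (ContinuousLinearMap.contDiff (𝕜 := ℝ) (E := C(KI, E)) (F := C(KI, E)) (intOp E)) h1
  have h3 : ContDiff ℝ m (fun p : (ℝ × E) × C(KI, E) => intOp E (X.comp p.2)) :=
    h2.comp contDiff_snd
  have h4 : ContDiff ℝ m (fun p : (ℝ × E) × C(KI, E) => constL E p.1.2) :=
    ContDiff.comp (g := fun v : E => constL E v) (f := fun p : (ℝ × E) × C(KI, E) => p.1.2)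
      (ContinuousLinearMap.contDiff (𝕜 := ℝ) (E := E) (F := C(KI, E)) (constL E))
      (contDiff_snd.comp contDiff_fst)
  have h5 : ContDiff ℝ m (fun p : (ℝ × E) × C(KI, E) => p.1.1) :=
    contDiff_fst.comp contDiff_fst
  exact (contDiff_snd.sub h4).sub (h5.smul h3)

theorem local_flow_aux [CompleteSpace E] (m : ℕ) (hm : m ≠ 0) (X : C(E, E))
    (hX : ContDiff ℝ m X) (v₀ : E) :
    ∃ g : ℝ × E → C(KI, E), g (0, v₀) = constL E v₀ ∧ ContDiffAt ℝ m g (0, v₀) ∧
      ∀ᶠ p in 𝓝 ((0 : ℝ), v₀), g p = constL E p.2 + p.1 • intOp E (X.comp (g p)) := by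
  set w : (ℝ × E) × C(KI, E) := ((0, v₀), constL E v₀) with hw
  have hΦ : ContDiffAt ℝ m (Phi X) w := (contDiff_Phi m X hX).contDiffAt
  have hm' : ((m : ℕ) : ℕ∞ω) ≠ 0 := by exact_mod_cast hm
  have hd : HasFDerivAt (Phi X) (fderiv ℝ (Phi X) w) w :=
    (hΦ.differentiableAt hm').hasFDerivAt
  have hinr : fderiv ℝ (Phi X) w ∘L ContinuousLinearMap.inr ℝ (ℝ × E) C(KI, E) =
      ContinuousLinearMap.id ℝ C(KI, E) := by
    have h1 : HasFDerivAt (fun γ : C(KI, E) => ((((0 : ℝ), v₀) : ℝ × E), γ))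
        (ContinuousLinearMap.inr ℝ (ℝ × E) C(KI, E)) (constL E v₀) :=
      hasFDerivAt_prodMk_right _ _
    have h2 : HasFDerivAt (fun γ : C(KI, E) => Phi X ((((0 : ℝ), v₀) : ℝ × E), γ))
        (fderiv ℝ (Phi X) w ∘L ContinuousLinearMap.inr ℝ (ℝ × E) C(KI, E)) (constL E v₀) :=
      HasFDerivAt.comp (g := Phi X) (constL E v₀) (by exact hd) h1
    have h3 : (fun γ : C(KI, E) => Phi X ((((0 : ℝ), v₀) : ℝ × E), γ)) =
        fun γ : C(KI, E) => γ - constL E v₀ := by
      funext γ
      simp [Phi]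
    rw [h3] at h2
    have h4 : HasFDerivAt (fun γ : C(KI, E) => γ - constL E v₀)
        (ContinuousLinearMap.id ℝ C(KI, E)) (constL E v₀) :=
      (hasFDerivAt_id (𝕜 := ℝ) (constL E v₀)).sub_const _
    exact h2.unique h4
  have hinv : (fderiv ℝ (Phi X) w ∘L ContinuousLinearMap.inr ℝ (ℝ × E) C(KI, E)).IsInvertible := by
    rw [hinr]
    exact ⟨ContinuousLinearEquiv.refl ℝ _, rfl⟩
  refine ⟨hΦ.implicitFunction hm' hinv, ?_, ?_, ?_⟩
  · exact hΦ.implicitFunction_apply_self hm' hinv
  · exact hΦ.contDiffAt_implicitFunction hm' hinv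
  · have h0 : Phi X w = 0 := by simp [Phi, hw]
    filter_upwards [hΦ.eventually_apply_implicitFunction hm' hinv] with p hp
    rw [h0] at hp
    simp only [Phi] at hp
    have h5 : hΦ.implicitFunction hm' hinv p - (constL E p.2 +
      p.1 • intOp E (X.comp (hΦ.implicitFunction hm' hinv p))) = 0 := by
      rw [← hp]; abel
    exact sub_eq_zero.1 h5

/-- A continuous solution of the fixed point equation gives a solution of the ODE. -/
theorem solution_of_fixed [CompleteSpace E] (X : C(E, E)) (γ : C(KI, E)) (u : E) (s : ℝ)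
    (hs : s ≠ 0) (h : γ = constL E u + s • intOp E (X.comp γ)) :
    γ (prI (0 / s)) = u ∧ ∀ τ ∈ Ioo (-|s|) |s|,
      HasDerivAt (fun τ => γ (prI (τ / s))) (X (γ (prI (τ / s)))) τ := by
  have hc : Continuous (fun x : ℝ => X (γ (prI x))) :=
    X.continuous.comp (γ.continuous.comp continuous_prI)
  have hval : ∀ x ∈ Icc (-1 : ℝ) 1, γ (prI x) = u + s • ∫ y in (0 : ℝ)..x, X (γ (prI y)) := by
    intro x hx
    have h1 : ((prI x : KI) : ℝ) = x := by
      rw [prI, projIcc_of_mem _ hx]
    conv_lhs => rw [h]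
    simp only [ContinuousMap.add_apply, ContinuousMap.smul_apply, constL_apply, intOp_apply, h1,
      ContinuousMap.comp_apply]
  constructor
  · rw [zero_div, hval 0 (by norm_num)]
    simp
  · intro τ hτ
    have hs' : 0 < |s| := abs_pos.2 hs
    have hmem : ∀ σ ∈ Ioo (-|s|) |s|, σ / s ∈ Icc (-1 : ℝ) 1 := by
      intro σ hσ
      have h1 : |σ / s| ≤ 1 := by
        rw [abs_div, div_le_one hs']
        exact (abs_lt.2 hσ).le
      exact abs_le.1 h1
    have hev : (fun τ => γ (prI (τ / s))) =ᶠ[𝓝 τ]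
        fun τ => u + s • ∫ y in (0 : ℝ)..(τ / s), X (γ (prI y)) := by
      filter_upwards [Ioo_mem_nhds hτ.1 hτ.2] with σ hσ
      exact hval _ (hmem σ hσ)
    have h1 : HasDerivAt (fun x : ℝ => ∫ y in (0 : ℝ)..x, X (γ (prI y))) (X (γ (prI (τ / s))))
        (τ / s) :=
      intervalIntegral.integral_hasDerivAt_right (hc.intervalIntegrable _ _)
        hc.stronglyMeasurable.stronglyMeasurableAtFilter hc.continuousAt
    have h2 : HasDerivAt (fun τ : ℝ => τ / s) (1 / s) τ := (hasDerivAt_id τ).div_const s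
    have h3 : HasDerivAt (fun τ : ℝ => ∫ y in (0 : ℝ)..(τ / s), X (γ (prI y)))
        ((1 / s) • X (γ (prI (τ / s)))) τ :=
      HasDerivAt.scomp (g₁ := fun x : ℝ => ∫ y in (0 : ℝ)..x, X (γ (prI y)))
        (h := fun τ : ℝ => τ / s) τ h1 h2
    have h4 := (h3.const_smul s).const_add u
    rw [smul_smul, mul_one_div_cancel hs, one_smul] at h4
    exact h4.congr_of_eventuallyEq hev

end Pool.Agent.H99
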