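import Mathlib

/-!
Generic combinations `∑ b_j c_j F_j` of countably many smooth functions on an open set.
-/

open scoped Topology ContDiff BoundedContinuousFunction
open Set Filter Metric

namespace Pool.Agent.H99

variable {E : Type} [NormedAddCommGroup E] [NormedSpace ℝ E]

/-- Countably many bump functions in `W`, one of which is `1` near any given point of `W`. -/
theorem exists_bump_cover [FiniteDimensional ℝ E] {W : Set E} (hW : IsOpen W)
    (hne : W.Nonempty) :
    ∃ χ : ℕ → E → ℝ, (∀ m, ContDiff ℝ ∞ (χ m)) ∧ (∀ m, HasCompactSupport (χ m)) ∧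
      (∀ m, tsupport (χ m) ⊆ W) ∧ ∀ x ∈ W, ∃ m, ∀ᶠ y in 𝓝 x, χ m y = 1 := by
  have h1 : ∀ x : E, ∃ f : ContDiffBump x, x ∈ W → closedBall x f.rOut ⊆ W := by
    intro x
    by_cases hx : x ∈ W
    · obtain ⟨R, hR, hRW⟩ := Metric.isOpen_iff.1 hW x hx
      exact ⟨⟨R / 4, R / 2, by positivity, by linarith⟩, fun _ =>
        (closedBall_subset_ball (by show R / 2 < R; linarith)).trans hRW⟩
    · exact ⟨⟨1, 2, by norm_num, by norm_num⟩, fun h => absurd h hx⟩
  choose f hf using h1
  obtain ⟨t, htW, htc, hcov⟩ := TopologicalSpace.countable_cover_nhdsWithin (s := W)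
    (f := fun x => ball x (f x).rIn)
    (fun x _ => mem_nhdsWithin_of_mem_nhds (ball_mem_nhds _ (f x).rIn_pos))
  have htne : t.Nonempty := by
    obtain ⟨x, hx⟩ := hne
    have := hcov hx
    simp only [mem_iUnion] at this
    obtain ⟨y, hy, -⟩ := this
    exact ⟨y, hy⟩
  obtain ⟨g, hg⟩ := htc.exists_eq_range htne
  have hgW : ∀ m, g m ∈ W := fun m => htW (hg ▸ mem_range_self m)
  refine ⟨fun m => f (g m), fun m => (f (g m)).contDiff, fun m => (f (g m)).hasCompactSupport,
    ?_, ?_⟩
  · intro m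
    rw [(f (g m)).tsupport_eq]
    exact hf (g m) (hgW m)
  · intro x hx
    have := hcov hx
    simp only [mem_iUnion] at this
    obtain ⟨y, hy, hxy⟩ := this
    rw [hg] at hy
    obtain ⟨m, rfl⟩ := hy
    refine ⟨m, ?_⟩
    filter_upwards [isOpen_ball.mem_nhds hxy] with z hz
    exact (f (g m)).one_of_mem_closedBall (ball_subset_closedBall hz)

theorem bounded_derivs [FiniteDimensional ℝ E] {g : E → ℝ} (hg : ContDiff ℝ ∞ g)
    (hc : HasCompactSupport g) (k : ℕ) : ∃ M, ∀ x, ‖iteratedFDeriv ℝ k g x‖ ≤ M := by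
  have h1 : Continuous (iteratedFDeriv ℝ k g) :=
    hg.continuous_iteratedFDeriv (by exact_mod_cast le_top)
  exact h1.bounded_above_of_compact_support (hc.iteratedFDeriv k)

theorem contDiff_of_tsupport0 {n : ℕ∞ω} {f : E → ℝ} (h : ∀ x ∈ tsupport f, ContDiffAt ℝ n f x) :
    ContDiff ℝ n f := by
  rw [contDiff_iff_contDiffAt]
  intro x
  by_cases hx : x ∈ tsupport f
  · exact h x hx
  · rw [notMem_tsupport_iff_eventuallyEq] at hx
    exact contDiffAt_const.congr_of_eventuallyEq hx

/-- Sequences `b` bounded with all `∑ b_j α_{k j} ≠ 0`. -/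
theorem exists_generic (α : ℕ → ℕ → ℝ) (hα : ∀ k, Summable fun j => |α k j|)
    (hne : ∀ k, α k k ≠ 0) : ∃ b : ℕ →ᵇ ℝ, ∀ k, ∑' j, b j * α k j ≠ 0 := by
  have hsum : ∀ (k : ℕ) (b : ℕ →ᵇ ℝ), Summable fun j => b j * α k j := by
    intro k b
    refine Summable.of_norm_bounded ((hα k).mul_left ‖b‖) fun j => ?_
    rw [norm_mul, Real.norm_eq_abs (α k j)]
    exact mul_le_mul_of_nonneg_right (b.norm_coe_le_norm j) (abs_nonneg _)
  -- continuous functionals
  let L : ℕ → (ℕ →ᵇ ℝ) →L[ℝ] ℝ := fun k =>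
    LinearMap.mkContinuous
      { toFun := fun b => ∑' j, b j * α k j
        map_add' := by
          intro b c
          rw [← (hsum k b).tsum_add (hsum k c)]
          congr 1
          funext j
          simp only [BoundedContinuousFunction.coe_add, Pi.add_apply]
          ring
        map_smul' := by
          intro r b
          simp only [BoundedContinuousFunction.coe_smul, RingHom.id_apply, smul_eq_mul]
          rw [← tsum_mul_left]
          congr 1
          funext j
          ring } (∑' j, |α k j|) (by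
        intro b
        have h1 : ‖∑' j, b j * α k j‖ ≤ ∑' j, ‖b‖ * |α k j| := by
          refine tsum_of_norm_bounded ((hα k).mul_left ‖b‖).hasSum fun j => ?_
          rw [norm_mul, Real.norm_eq_abs (α k j)]
          exact mul_le_mul_of_nonneg_right (b.norm_coe_le_norm j) (abs_nonneg _)
        rw [tsum_mul_left, mul_comm ‖b‖] at h1
        exact h1)
  have hL : ∀ k b, L k b = ∑' j, b j * α k j := fun k b => rfl
  have hopen : ∀ k, IsOpen {b : ℕ →ᵇ ℝ | L k b ≠ 0} := fun k =>
    isOpen_ne_fun (L k).continuous continuous_const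
  have hdense : ∀ k, Dense {b : ℕ →ᵇ ℝ | L k b ≠ 0} := by
    intro k
    let e : ℕ →ᵇ ℝ := BoundedContinuousFunction.ofNormedAddCommGroupDiscrete
      (fun j => if j = k then 1 else 0) 1 (by intro j; split_ifs <;> simp)
    have he : L k e = α k k := by
      rw [hL, tsum_eq_single k]
      · simp [e]
      · intro j hj
        simp [e, hj]
    intro b
    by_cases hb : L k b = 0
    · -- approximate by `b + δ e`
      have hlim : Tendsto (fun δ : ℝ => b + δ • e) (𝓝[≠] 0) (𝓝 b) := by
        have h1 : Continuous (fun δ : ℝ => b + δ • e) := by fun_prop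
        have h2 := h1.tendsto 0
        simp only [zero_smul, add_zero] at h2
        exact h2.mono_left nhdsWithin_le_nhds
      refine mem_closure_of_tendsto hlim ?_
      filter_upwards [self_mem_nhdsWithin] with δ hδ
      show L k (b + δ • e) ≠ 0
      rw [map_add, map_smul, hb, he, zero_add, smul_eq_mul]
      exact mul_ne_zero hδ (hne k)
    · exact subset_closure hb
  obtain ⟨b, hb⟩ := (dense_iInter_of_isOpen_nat hopen hdense).nonempty
  refine ⟨b, fun k => ?_⟩
  have := mem_iInter.1 hb k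
  exact this

theorem exists_smooth_sum [FiniteDimensional ℝ E] {W : Set E} (hW : IsOpen W)
    (F : ℕ → E → ℝ) (hF : ∀ j, ContDiffOn ℝ ∞ (F j) W) (u ξ : ℕ → E) (hu : ∀ k, u k ∈ W)
    (hξ : ∀ k, fderiv ℝ (F k) (u k) (ξ k) ≠ 0) :
    ∃ G : E → ℝ, ContDiffOn ℝ ∞ G W ∧
      (∀ x ∈ W, ∃ a : ℕ → ℝ, Summable (fun j => a j • fderiv ℝ (F j) x) ∧
        fderiv ℝ G x = ∑' j, a j • fderiv ℝ (F j) x) ∧
      ∀ k, fderiv ℝ G (u k) (ξ k) ≠ 0 := by
  obtain ⟨χ, hχ1, hχ2, hχ3, hχ4⟩ := exists_bump_cover hW ⟨u 0, hu 0⟩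
  have hsm : ∀ m j, ContDiff ℝ ∞ (fun y => χ m y * F j y) := by
    intro m j
    apply contDiff_of_tsupport0
    intro x hx
    have hx1 : x ∈ tsupport (χ m) := tsupport_mul_subset_left (f := χ m) (g := F j) hx
    exact (hχ1 m).contDiffAt.mul ((hF j).contDiffAt (hW.mem_nhds (hχ3 m hx1)))
  have hcs : ∀ m j, HasCompactSupport (fun y => χ m y * F j y) := fun m j =>
    (hχ2 m).mul_right
  have hbd : ∀ m j k, ∃ M, ∀ x, ‖iteratedFDeriv ℝ k (fun y => χ m y * F j y) x‖ ≤ M :=
    fun m j k => bounded_derivs (hsm m j) (hcs m j) k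
  choose M hM using hbd
  have hM0 : ∀ m j k, 0 ≤ M m j k := fun m j k => (norm_nonneg _).trans (hM m j k 0)
  set N : ℕ → ℝ := fun j => ∑ m ∈ Finset.range (j + 1), ∑ k ∈ Finset.range (j + 1), M m j k
    with hN
  have hN0 : ∀ j, 0 ≤ N j := fun j =>
    Finset.sum_nonneg fun m _ => Finset.sum_nonneg fun k _ => hM0 m j k
  set c : ℕ → ℝ := fun j => (1 / 2) ^ j / (1 + N j) with hc
  have hc0 : ∀ j, 0 < c j := fun j => by have := hN0 j; positivity
  have hcM : ∀ m j k, m ≤ j → k ≤ j → c j * M m j k ≤ (1 / 2) ^ j := by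
    intro m j k hm hk
    have h1 : M m j k ≤ N j := by
      calc M m j k ≤ ∑ k ∈ Finset.range (j + 1), M m j k :=
            Finset.single_le_sum (f := fun k => M m j k) (fun k _ => hM0 m j k)
              (Finset.mem_range.2 (by omega))
        _ ≤ N j :=
            Finset.single_le_sum (f := fun m => ∑ k ∈ Finset.range (j + 1), M m j k)
              (fun m _ => Finset.sum_nonneg fun k _ => hM0 m j k)
              (Finset.mem_range.2 (by omega))
    have h2 := hN0 j
    rw [hc]
    simp only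
    rw [div_mul_eq_mul_div, div_le_iff₀ (by positivity)]
    have h3 : (0 : ℝ) < (1 / 2) ^ j := by positivity
    nlinarith
  -- summability of `c j * M m j k`
  have hsumM : ∀ m k, Summable fun j => c j * M m j k := by
    intro m k
    have h1 : Summable fun j : ℕ => (1 / 2 : ℝ) ^ j := summable_geometric_two
    refine Summable.of_norm_bounded_eventually_nat h1 ?_
    filter_upwards [eventually_ge_atTop m, eventually_ge_atTop k] with j hj1 hj2
    rw [Real.norm_of_nonneg (mul_nonneg (hc0 j).le (hM0 m j k))]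
    exact hcM m j k hj1 hj2
  have hfd : ∀ m j x, ‖fderiv ℝ (fun y => χ m y * F j y) x‖ ≤ M m j 1 := by
    intro m j x
    have h := hM m j 1 x
    rwa [norm_iteratedFDeriv_one] at h
  -- near a point of `W`
  have hnear : ∀ x ∈ W, ∃ m, (∀ᶠ y in 𝓝 x, χ m y = 1) ∧
      ∀ j, fderiv ℝ (fun y => χ m y * F j y) x = fderiv ℝ (F j) x := by
    intro x hx
    obtain ⟨m, hm⟩ := hχ4 x hx
    refine ⟨m, hm, fun j => ?_⟩
    apply Filter.EventuallyEq.fderiv_eq
    filter_upwards [hm] with y hy
    rw [hy, one_mul]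
  -- the generic coefficients
  obtain ⟨b, hb⟩ := exists_generic (fun k j => c j * fderiv ℝ (F j) (u k) (ξ k)) (by
    intro k
    obtain ⟨m, -, hm2⟩ := hnear (u k) (hu k)
    refine Summable.of_nonneg_of_le (fun j => abs_nonneg _) (fun j => ?_)
      ((hsumM m 1).mul_right ‖ξ k‖)
    rw [abs_mul, abs_of_pos (hc0 j), mul_assoc]
    apply mul_le_mul_of_nonneg_left _ (hc0 j).le
    rw [← hm2 j, ← Real.norm_eq_abs]
    exact (ContinuousLinearMap.le_opNorm _ _).trans
      (mul_le_mul_of_nonneg_right (hfd m j _) (norm_nonneg _)))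
    (fun k => mul_ne_zero (hc0 k).ne' (hξ k))
  -- the function
  set G : E → ℝ := fun y => ∑' j, b j * c j * F j y with hG
  set Sm : ℕ → E → ℝ := fun m y => ∑' j, b j * c j * (χ m y * F j y) with hSm
  have hbb : ∀ j, |b j * c j| ≤ ‖b‖ * c j := by
    intro j
    rw [abs_mul, abs_of_pos (hc0 j)]
    exact mul_le_mul_of_nonneg_right (b.norm_coe_le_norm j) (hc0 j).le
  have hterm : ∀ m j, ContDiff ℝ ∞ (fun y => b j * c j * (χ m y * F j y)) := fun m j =>
    contDiff_const.mul (hsm m j)
  have hSmooth : ∀ m, ContDiff ℝ ∞ (Sm m) := by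
    intro m
    refine contDiff_tsum_of_eventually (v := fun _ j => ‖b‖ * (1 / 2) ^ j) (hterm m) ?_ ?_
    · intro k _
      exact (summable_geometric_two).mul_left ‖b‖
    · intro k _
      rw [Nat.cofinite_eq_atTop]
      filter_upwards [eventually_ge_atTop m, eventually_ge_atTop k] with j hj1 hj2
      intro x
      have h1 : iteratedFDeriv ℝ k (fun y => b j * c j * (χ m y * F j y)) x =
          (b j * c j) • iteratedFDeriv ℝ k (fun y => χ m y * F j y) x := by
        have h2 : (fun y => b j * c j * (χ m y * F j y)) =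
            (b j * c j) • (fun y => χ m y * F j y) := by
          funext y; simp [smul_eq_mul]
        rw [h2]
        exact iteratedFDeriv_const_smul_apply ((hsm m j).contDiffAt.of_le (by exact_mod_cast le_top))
      rw [h1, norm_smul, Real.norm_eq_abs]
      calc |b j * c j| * ‖iteratedFDeriv ℝ k (fun y => χ m y * F j y) x‖
          ≤ (‖b‖ * c j) * M m j k :=
            mul_le_mul (hbb j) (hM m j k x) (norm_nonneg _) (by have := hc0 j; positivity)
        _ = ‖b‖ * (c j * M m j k) := by ring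
        _ ≤ ‖b‖ * (1 / 2) ^ j := mul_le_mul_of_nonneg_left (hcM m j k hj1 hj2) (norm_nonneg _)
  have hderiv : ∀ m x, HasFDerivAt (Sm m)
      (∑' j, (b j * c j) • fderiv ℝ (fun y => χ m y * F j y) x) x := by
    intro m x
    have hb1 : ∀ j x, ‖(b j * c j) • fderiv ℝ (fun y => χ m y * F j y) x‖ ≤
        ‖b‖ * (c j * M m j 1) := by
      intro j x
      rw [norm_smul, Real.norm_eq_abs]
      calc _ ≤ (‖b‖ * c j) * M m j 1 :=
            mul_le_mul (hbb j) (hfd m j x) (norm_nonneg _) (by have := hc0 j; positivity)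
        _ = _ := by ring
    refine hasFDerivAt_tsum (f := fun j y => b j * c j * (χ m y * F j y))
      (f' := fun j x => (b j * c j) • fderiv ℝ (fun y => χ m y * F j y) x)
      (u := fun j => ‖b‖ * (c j * M m j 1)) ((hsumM m 1).mul_left ‖b‖) ?_ hb1 (x₀ := x) ?_ x
    · intro j y
      have h1 : HasFDerivAt (fun y => χ m y * F j y) (fderiv ℝ (fun y => χ m y * F j y) y) y :=
        ((hsm m j).differentiable (by simp) y).hasFDerivAt
      exact h1.const_mul (b j * c j)
    · have h0 : ∀ j x, ‖χ m x * F j x‖ ≤ M m j 0 := by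
        intro j x
        have := hM m j 0 x
        rwa [norm_iteratedFDeriv_zero] at this
      refine Summable.of_norm_bounded ((hsumM m 0).mul_left ‖b‖) fun j => ?_
      rw [norm_mul, Real.norm_eq_abs (b j * c j)]
      calc |b j * c j| * ‖χ m x * F j x‖ ≤ (‖b‖ * c j) * M m j 0 :=
            mul_le_mul (hbb j) (h0 j x) (norm_nonneg _) (by have := hc0 j; positivity)
        _ = _ := by ring
  have hGS : ∀ x ∈ W, ∃ m, G =ᶠ[𝓝 x] Sm m ∧
      ∀ j, fderiv ℝ (fun y => χ m y * F j y) x = fderiv ℝ (F j) x := by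
    intro x hx
    obtain ⟨m, hm1, hm2⟩ := hnear x hx
    refine ⟨m, ?_, hm2⟩
    filter_upwards [hm1] with y hy
    simp only [hG, hSm, hy, one_mul]
  have hGf : ∀ x ∈ W, Summable (fun j => (b j * c j) • fderiv ℝ (F j) x) ∧
      fderiv ℝ G x = ∑' j, (b j * c j) • fderiv ℝ (F j) x := by
    intro x hx
    obtain ⟨m, hm1, hm2⟩ := hGS x hx
    constructor
    · refine Summable.of_norm_bounded ((hsumM m 1).mul_left ‖b‖) fun j => ?_
      rw [norm_smul, Real.norm_eq_abs, ← hm2 j]
      calc _ ≤ (‖b‖ * c j) * M m j 1 :=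
            mul_le_mul (hbb j) (hfd m j x) (norm_nonneg _) (by have := hc0 j; positivity)
        _ = _ := by ring
    · rw [hm1.fderiv_eq, (hderiv m x).fderiv]
      congr 1
      funext j
      rw [hm2 j]
  refine ⟨G, ?_, ?_, ?_⟩
  · intro x hx
    obtain ⟨m, hm1, -⟩ := hGS x hx
    exact ((hSmooth m).contDiffAt.congr_of_eventuallyEq hm1).contDiffWithinAt
  · intro x hx
    exact ⟨fun j => b j * c j, hGf x hx⟩
  · intro k
    obtain ⟨h1, h2⟩ := hGf (u k) (hu k)
    have h3 := (h1.hasSum.mapL (ContinuousLinearMap.apply ℝ ℝ (ξ k))).tsum_eq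
    rw [h2]
    have h4 : (∑' j, (b j * c j) • fderiv ℝ (F j) (u k)) (ξ k) =
        ∑' j, b j * (c j * fderiv ℝ (F j) (u k) (ξ k)) := by
      have h5 : (∑' j, (b j * c j) • fderiv ℝ (F j) (u k)) (ξ k) =
          ContinuousLinearMap.apply ℝ ℝ (ξ k) (∑' j, (b j * c j) • fderiv ℝ (F j) (u k)) := rfl
      rw [h5, ← h3]
      congr 1
      funext j
      simp only [ContinuousLinearMap.apply_apply, smul_apply, smul_eq_mul]
      ring
    rw [h4]
    exact hb k

end Pool.Agent.H99
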