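import Mathlib

/-!
Superposition (Nemytskii) operators on `C(K, E)` are as smooth as the function.
-/

open scoped Topology ContDiff
open Set Filter Metric

namespace Pool.Agent.H99

universe u

section

variable (K : Type) [TopologicalSpace K] [CompactSpace K]
variable (E F : Type u) [NormedAddCommGroup E] [NormedSpace ℝ E] [NormedAddCommGroup F]
  [NormedSpace ℝ F]

/-- Pointwise application of a continuous family of operators to a continuous family of vectors. -/
noncomputable def ptApply : C(K, E →L[ℝ] F) →L[ℝ] (C(K, E) →L[ℝ] C(K, F)) :=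
  LinearMap.mkContinuous₂
    (LinearMap.mk₂ ℝ (fun (A : C(K, E →L[ℝ] F)) (h : C(K, E)) =>
        (⟨fun t => A t (h t), by fun_prop⟩ : C(K, F)))
      (by intro A B h; ext t; simp) (by intro c A h; ext t; simp)
      (by intro A h k; ext t; simp) (by intro c A h; ext t; simp))
    1 (by
      intro A h
      rw [one_mul]
      refine (ContinuousMap.norm_le _ (by positivity)).2 fun t => ?_
      simp only [LinearMap.mk₂_apply, ContinuousMap.coe_mk]
      exact (ContinuousLinearMap.le_opNorm _ _).trans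
        (mul_le_mul (A.norm_coe_le_norm t) (h.norm_coe_le_norm t) (norm_nonneg (h t))
          (norm_nonneg A)))

@[simp] theorem ptApply_apply (A : C(K, E →L[ℝ] F)) (h : C(K, E)) (t : K) :
    ptApply K E F A h t = A t (h t) := rfl

end

variable {K : Type} [TopologicalSpace K] [CompactSpace K]

theorem hasFDerivAt_comp {E F : Type u} [NormedAddCommGroup E] [NormedSpace ℝ E]
    [NormedAddCommGroup F] [NormedSpace ℝ F] (f : C(E, F)) (f' : C(E, E →L[ℝ] F))
    (hf : ∀ x, HasFDerivAt f (f' x) x) (γ : C(K, E)) :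
    HasFDerivAt (fun γ : C(K, E) => f.comp γ) (ptApply K E F (f'.comp γ)) γ := by
  rw [hasFDerivAt_iff_isLittleO_nhds_zero, Asymptotics.isLittleO_iff]
  intro ε hε
  -- continuity of the superposition operator of `f'`
  have hcont : Continuous (fun γ : C(K, E) => f'.comp γ) := ContinuousMap.continuous_postcomp f'
  have h0 : ∀ᶠ g in 𝓝 γ, f'.comp g ∈ ball (f'.comp γ) ε :=
    (hcont.tendsto γ).eventually (Metric.ball_mem_nhds (f'.comp γ) hε)
  obtain ⟨δ, hδ, h1⟩ := Metric.eventually_nhds_iff.1 h0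
  have h2 : ∀ t : K, ∀ v : E, ‖v‖ < δ → ‖f' (γ t + v) - f' (γ t)‖ ≤ ε := by
    intro t v hv
    have h3 := @h1 (γ + ContinuousMap.const K v) (by
      rw [dist_eq_norm, add_sub_cancel_left]
      exact lt_of_le_of_lt ((ContinuousMap.norm_le _ (norm_nonneg v)).2 fun s => by simp) hv)
    have h4 := ContinuousMap.dist_apply_le_dist (f := f'.comp (γ + ContinuousMap.const K v))
      (g := f'.comp γ) t
    have h5 := h4.trans (mem_ball.1 h3).le
    rw [dist_eq_norm] at h5
    simpa using h5
  have hball : ball (0 : C(K, E)) δ ∈ 𝓝 (0 : C(K, E)) := ball_mem_nhds _ hδ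
  filter_upwards [hball] with h hh
  rw [mem_ball_zero_iff] at hh
  refine (ContinuousMap.norm_le _ (by positivity)).2 fun t => ?_
  have hht : ‖h t‖ ≤ ‖h‖ := h.norm_coe_le_norm t
  have key := Convex.norm_image_sub_le_of_norm_hasFDerivWithin_le' (𝕜 := ℝ) (f := f)
    (f' := fun x => f' x) (φ := f' (γ t)) (C := ε) (s := ball (γ t) δ) (x := γ t)
    (y := γ t + h t)
    (fun x _ => (hf x).hasFDerivWithinAt)
    (by
      intro x hx
      have := h2 t (x - γ t) (by rwa [mem_ball, dist_eq_norm] at hx)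
      simpa using this)
    (convex_ball _ _) (mem_ball_self hδ)
    (by rw [mem_ball, dist_eq_norm, add_sub_cancel_left]; exact lt_of_le_of_lt hht hh)
  simp only [ContinuousMap.sub_apply, ContinuousMap.comp_apply, ContinuousMap.add_apply,
    ptApply_apply]
  calc ‖f (γ t + h t) - f (γ t) - (f' (γ t)) (h t)‖
      = ‖f (γ t + h t) - f (γ t) - (f' (γ t)) (γ t + h t - γ t)‖ := by rw [add_sub_cancel_left]
    _ ≤ ε * ‖γ t + h t - γ t‖ := key
    _ ≤ ε * ‖h‖ := by rw [add_sub_cancel_left]; exact mul_le_mul_of_nonneg_left hht hε.le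

theorem contDiff_comp_nat (m : ℕ) : ∀ {E F : Type u} [NormedAddCommGroup E] [NormedSpace ℝ E]
    [NormedAddCommGroup F] [NormedSpace ℝ F] (f : C(E, F)) (_ : ContDiff ℝ m f),
    ContDiff ℝ m (fun γ : C(K, E) => f.comp γ) := by
  induction m with
  | zero =>
    intro E F _ _ _ _ f hf
    simp only [Nat.cast_zero]
    rw [contDiff_zero]
    exact ContinuousMap.continuous_postcomp f
  | succ m ih =>
    intro E F _ _ _ _ f hf
    have hf1 : ContDiff ℝ 1 f := hf.of_le (by norm_cast; omega)
    let f' : C(E, E →L[ℝ] F) := ⟨fderiv ℝ f, hf1.continuous_fderiv one_ne_zero⟩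
    have hf' : ∀ x, HasFDerivAt f (f' x) x := fun x =>
      ((hf1.differentiable one_ne_zero) x).hasFDerivAt
    have hf'm : ContDiff ℝ m f' := hf.fderiv_right (by norm_cast)
    have h1 : ContDiff ℝ m (fun γ : C(K, E) => f'.comp γ) := ih f' hf'm
    have h3 : ContDiff ℝ m (fun A : C(K, E →L[ℝ] F) => ptApply K E F A) :=
      ContinuousLinearMap.contDiff (𝕜 := ℝ) (E := C(K, E →L[ℝ] F))
        (F := C(K, E) →L[ℝ] C(K, F)) (ptApply K E F)
    have h2 : ContDiff ℝ m (fun γ : C(K, E) => ptApply K E F (f'.comp γ)) :=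
      ContDiff.comp (g := fun A : C(K, E →L[ℝ] F) => ptApply K E F A)
        (f := fun γ : C(K, E) => f'.comp γ) h3 h1
    exact contDiff_succ_iff_hasFDerivAt.2 ⟨_, h2, fun γ => hasFDerivAt_comp f f' hf' γ⟩

end Pool.Agent.H99
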