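import Pool.Agent.Lib.helper99.Flow

/-!
Vector fields with a time function `J` (`X J = 1`) and a conserved `En`, under one-sided control
of the blow-up: local first integrals extend smoothly to the whole domain.
-/

open scoped Topology ContDiff
open Set Filter Metric

namespace Pool.Agent.H99

universe u

variable {E : Type u} [NormedAddCommGroup E] [NormedSpace ℝ E]

/-- Forward blow-up at time `T`. -/
def Blow (X : E → E) (Ω : Set E) (u : E) (T : ℝ) : Prop :=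
  0 < T ∧ (¬ ∃ v, Conn X Ω u T v) ∧
    (∀ s ∈ Ico 0 T, Conn X Ω u s (fl X Ω (s, u))) ∧
      ∀ K, IsCompact K → K ⊆ Ω → ∃ s ∈ Ico 0 T, fl X Ω (s, u) ∉ K

/-- Backward blow-up at time `-T`. -/
def BlowB (X : E → E) (Ω : Set E) (u : E) (T : ℝ) : Prop :=
  0 < T ∧ (¬ ∃ v, Conn X Ω u (-T) v) ∧
    (∀ s ∈ Ico 0 T, Conn X Ω u (-s) (fl X Ω (-s, u))) ∧
      ∀ K, IsCompact K → K ⊆ Ω → ∃ s ∈ Ico 0 T, fl X Ω (-s, u) ∉ K

variable {X : E → E} {Ω : Set E} {t s : ℝ} {u v w y : E}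

theorem Conn.neg_field (h : Conn X Ω u t v) : Conn (fun y => -X y) Ω u (-t) v := by
  obtain ⟨γ, a, b, ha0, hb0, ha, hb, h0, ht, hsol⟩ := h
  refine ⟨fun s => γ (-s), -b, -a, by linarith, by linarith, by linarith, by linarith,
    by simpa using h0, by simpa using ht, ?_⟩
  intro s hs
  have hs' : -s ∈ Ioo a b := ⟨by linarith [hs.2], by linarith [hs.1]⟩
  refine ⟨(hsol _ hs').1, ?_⟩
  have h1 : HasDerivAt (fun s : ℝ => -s) (-1) s := hasDerivAt_neg s
  have h2 : HasDerivAt (fun s => γ (-s)) ((-1 : ℝ) • X (γ (-s))) s :=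
    HasDerivAt.scomp (g₁ := γ) (h := fun s : ℝ => -s) s (hsol _ hs').2 h1
  simpa using h2

theorem Conn.of_neg_field (h : Conn (fun y => -X y) Ω u t v) : Conn X Ω u (-t) v := by
  have h1 := h.neg_field
  simpa using h1

theorem exists_blow [FiniteDimensional ℝ E] (hΩ : IsOpen Ω) (hX : ContDiffOn ℝ 1 X Ω)
    (hu : u ∈ Ω) (ht : 0 ≤ t) (hno : ¬ ∃ v, Conn X Ω u t v) : ∃ T ≤ t, Blow X Ω u T := by
  obtain ⟨T, h1, h2, h3, h4, h5⟩ := exists_blowup hΩ hX hu ht hno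
  exact ⟨T, h2, h1, h3, h4, h5⟩

theorem exists_blowB [FiniteDimensional ℝ E] (hΩ : IsOpen Ω) (hX : ContDiffOn ℝ 1 X Ω)
    (hu : u ∈ Ω) (ht : 0 ≤ t) (hno : ¬ ∃ v, Conn X Ω u (-t) v) : ∃ T ≤ t, BlowB X Ω u T := by
  obtain ⟨T, h1, h2, h3, h4, h5⟩ := exists_blowup (X := fun y => -X y) hΩ hX.neg hu ht (by
    rintro ⟨v, hv⟩
    exact hno ⟨v, hv.of_neg_field⟩)
  have h6 : ∀ s ∈ Ico 0 T, fl (fun y => -X y) Ω (s, u) = fl X Ω (-s, u) := by
    intro s hs
    exact ((h4 s hs).of_neg_field.fl_eq hΩ hX).symm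
  refine ⟨T, h2, h1, ?_, ?_, ?_⟩
  · rintro ⟨v, hv⟩
    refine h3 ⟨v, ?_⟩
    have := hv.neg_field
    simpa using this
  · intro s hs
    rw [← h6 s hs]
    exact (h4 s hs).of_neg_field
  · intro K hK hKΩ
    obtain ⟨s, hs, hs'⟩ := h5 K hK hKΩ
    exact ⟨s, hs, by rw [← h6 s hs]; exact hs'⟩

theorem sign_conn {En : E → ℝ} (hΩ : IsOpen Ω) (hcEn : ContinuousOn En Ω)
    (hne : ∀ u ∈ Ω, En u ≠ 0) (h : Conn X Ω u t v) (hu : 0 < En u) : 0 < En v := by
  obtain ⟨γ, a, b, ha0, hb0, ha, hb, h0, ht, hsol⟩ := h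
  have hcont : ContinuousOn (fun s => En (γ s)) (Ioo a b) := by
    intro s hs
    have h1 : ContinuousAt En (γ s) := hcEn.continuousAt (hΩ.mem_nhds (hsol s hs).1)
    exact (h1.comp (hsol.continuousAt hs)).continuousWithinAt
  by_contra hcon
  have h2 : En v ≤ 0 := not_lt.1 hcon
  have h3 : (0 : ℝ) ∈ (fun s => En (γ s)) '' Ioo a b := by
    refine isPreconnected_Ioo.intermediate_value ⟨ha, hb⟩ ⟨ha0, hb0⟩ hcont ⟨?_, ?_⟩
    · simpa only [ht] using h2
    · simpa only [h0] using hu.le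
  obtain ⟨s, hs, hs'⟩ := h3
  exact hne _ (hsol s hs).1 hs'

/-- A function with constant derivative `c` along solutions grows linearly. -/
theorem Conn.linear {f : E → ℝ} {c : ℝ}
    (hf : ∀ (γ : ℝ → E) (s : ℝ), γ s ∈ Ω → HasDerivAt γ (X (γ s)) s →
      HasDerivAt (fun s => f (γ s)) c s) (h : Conn X Ω u t v) : f v = f u + c * t := by
  obtain ⟨γ, a, b, ha0, hb0, ha, hb, h0, ht, hsol⟩ := h
  have hd : ∀ s ∈ Ioo a b, HasDerivWithinAt (fun s => f (γ s) - c * s) 0 (Ioo a b) s := by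
    intro s hs
    have h1 := hf γ s (hsol s hs).1 (hsol s hs).2
    have h2 := h1.sub ((hasDerivAt_id s).const_mul c)
    simp only [mul_one, sub_self] at h2
    exact h2.hasDerivWithinAt
  have h3 := (convex_Ioo a b).norm_image_sub_le_of_norm_hasDerivWithin_le (C := 0) hd
    (fun s _ => by simp) (x := 0) (y := t) ⟨ha0, hb0⟩ ⟨ha, hb⟩
  rw [zero_mul, norm_le_zero_iff] at h3
  simp only [h0, ht] at h3
  linarith

/-- A smooth vector field with a time function and a nonvanishing function whose sign controls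
the blow-ups. -/
structure TimeSystem (X : E → E) (Ω : Set E) (J En : E → ℝ) : Prop where
  isOpen : IsOpen Ω
  smooth : ContDiffOn ℝ ∞ X Ω
  smoothJ : ContDiffOn ℝ ∞ J Ω
  contEn : ContinuousOn En Ω
  En_ne : ∀ u ∈ Ω, En u ≠ 0
  J_conn : ∀ {u t v}, Conn X Ω u t v → J v = J u + t
  blow_pos : ∀ {u T}, u ∈ Ω → Blow X Ω u T → 0 < En u → J u + T ≤ 0
  blow_neg : ∀ {u T}, u ∈ Ω → Blow X Ω u T → En u < 0 → 0 ≤ J u + T
  blowB_pos : ∀ {u T}, u ∈ Ω → BlowB X Ω u T → 0 < En u → 0 ≤ J u - T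
  blowB_neg : ∀ {u T}, u ∈ Ω → BlowB X Ω u T → En u < 0 → J u - T ≤ 0

/-- The points whose orbit reaches `{J = 0}`. -/
def U0 (X : E → E) (Ω : Set E) (J : E → ℝ) : Set E := {y | ∃ w, Conn X Ω y (-J y) w}

/-- The exceptional set. -/
def NN (X : E → E) (Ω : Set E) (J : E → ℝ) : Set E := closure (U0 X Ω J) \ U0 X Ω J

variable {J En : E → ℝ}

namespace TimeSystem

theorem smooth1 (S : TimeSystem X Ω J En) : ContDiffOn ℝ 1 X Ω :=
  S.smooth.of_le (by exact_mod_cast le_top)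

theorem En_pos (S : TimeSystem X Ω J En) (h : Conn X Ω u t v) (hu : 0 < En u) : 0 < En v :=
  sign_conn S.isOpen S.contEn S.En_ne h hu

theorem core [FiniteDimensional ℝ E] (S : TimeSystem X Ω J En) {ι : Type*} {l : Filter ι}
    [l.NeBot] {yn vn : ι → E} {tn : ι → ℝ} {y v : E} {t : ℝ} (hy : Tendsto yn l (𝓝 y))
    (hv : Tendsto vn l (𝓝 v)) (ht : Tendsto tn l (𝓝 t))
    (hc : ∀ᶠ n in l, Conn X Ω (yn n) (tn n) (vn n)) (hyΩ : y ∈ Ω) (hvΩ : v ∈ Ω) (htpos : 0 < t)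
    (hno : ¬ Conn X Ω y t v) :
    y ∈ NN X Ω J ∧ v ∈ NN X Ω J := by
  have hΩ := S.isOpen
  have hX := S.smooth1
  have hno1 : ¬ ∃ w, Conn X Ω y t w := by
    rintro ⟨w, hw⟩
    have h1 : Tendsto (fun n => fl X Ω (tn n, yn n)) l (𝓝 (fl X Ω (t, y))) :=
      (hw.continuousAt_fl hΩ hX).tendsto.comp (ht.prodMk_nhds hy)
    rw [hw.fl_eq hΩ hX] at h1
    have h2 : (fun n => fl X Ω (tn n, yn n)) =ᶠ[l] vn := by
      filter_upwards [hc] with n hn
      exact hn.fl_eq hΩ hX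
    have h3 := tendsto_nhds_unique_of_eventuallyEq h1 hv h2
    exact hno (h3 ▸ hw)
  have hno2 : ¬ ∃ w, Conn X Ω v (-t) w := by
    rintro ⟨w, hw⟩
    have h1 : Tendsto (fun n => fl X Ω (-tn n, vn n)) l (𝓝 (fl X Ω (-t, v))) :=
      (hw.continuousAt_fl hΩ hX).tendsto.comp (ht.neg.prodMk_nhds hv)
    rw [hw.fl_eq hΩ hX] at h1
    have h2 : (fun n => fl X Ω (-tn n, vn n)) =ᶠ[l] yn := by
      filter_upwards [hc] with n hn
      exact hn.symm.fl_eq hΩ hX
    have h3 := tendsto_nhds_unique_of_eventuallyEq h1 hy h2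
    have h4 := hw.symm
    rw [neg_neg, h3] at h4
    exact hno h4
  obtain ⟨Tp, hTp, hBp⟩ := exists_blow hΩ hX hyΩ htpos.le hno1
  obtain ⟨Tm, hTm, hBm⟩ := exists_blowB hΩ hX hvΩ htpos.le hno2
  have hTp0 := hBp.1
  have hTm0 := hBm.1
  -- overlap argument
  have hover : Tp + Tm ≤ t := by
    by_contra hcon
    push Not at hcon
    set s := (t - Tm + Tp) / 2 with hs
    have hs1 : s ∈ Ico 0 Tp := ⟨by linarith, by linarith⟩
    have hs2 : t - s ∈ Ico 0 Tm := ⟨by linarith, by linarith⟩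
    have c1 := hBp.2.2.1 s hs1
    have c2 := hBm.2.2.1 (t - s) hs2
    have l1 : Tendsto (fun n => fl X Ω (s, yn n)) l (𝓝 (fl X Ω (s, y))) :=
      (c1.continuousAt_fl hΩ hX).tendsto.comp (tendsto_const_nhds.prodMk_nhds hy)
    have l2' : Tendsto (fun n => ((s - tn n, vn n) : ℝ × E)) l (𝓝 (-(t - s), v)) := by
      have : -(t - s) = s - t := by ring
      rw [this]
      exact (tendsto_const_nhds.sub ht).prodMk_nhds hv
    have l2 : Tendsto (fun n => fl X Ω (s - tn n, vn n)) l (𝓝 (fl X Ω (-(t - s), v))) :=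
      (c2.continuousAt_fl hΩ hX).tendsto.comp l2'
    have l3 : ∀ᶠ n in l, Conn X Ω (yn n) s (fl X Ω (s, yn n)) :=
      (tendsto_const_nhds.prodMk_nhds hy).eventually (c1.eventually_conn_fl hΩ hX)
    have l4 : ∀ᶠ n in l, Conn X Ω (vn n) (s - tn n) (fl X Ω (s - tn n, vn n)) :=
      l2'.eventually (c2.eventually_conn_fl hΩ hX)
    have l5 : (fun n => fl X Ω (s, yn n)) =ᶠ[l] fun n => fl X Ω (s - tn n, vn n) := by
      filter_upwards [hc, l3, l4] with n h1 h2 h3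
      have h4 := Conn.trans hΩ hX h1 h3
      rw [add_sub_cancel] at h4
      exact Conn.unique hΩ hX h2 h4
    have l6 := tendsto_nhds_unique_of_eventuallyEq l1 l2 l5
    have c3 := c2.symm
    rw [neg_neg, ← l6] at c3
    have c4 := Conn.trans hΩ hX c1 c3
    rw [add_sub_cancel] at c4
    exact hno c4
  have hJy : Tendsto (fun n => J (yn n)) l (𝓝 (J y)) :=
    (S.smoothJ.continuousOn.continuousAt (hΩ.mem_nhds hyΩ)).tendsto.comp hy
  have hJv : Tendsto (fun n => J (vn n)) l (𝓝 (J v)) :=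
    (S.smoothJ.continuousOn.continuousAt (hΩ.mem_nhds hvΩ)).tendsto.comp hv
  have hEy : Tendsto (fun n => En (yn n)) l (𝓝 (En y)) :=
    (S.contEn.continuousAt (hΩ.mem_nhds hyΩ)).tendsto.comp hy
  have hEv : Tendsto (fun n => En (vn n)) l (𝓝 (En v)) :=
    (S.contEn.continuousAt (hΩ.mem_nhds hvΩ)).tendsto.comp hv
  have hEpos : 0 < En y → 0 < En v := by
    intro h
    have h1 : ∀ᶠ n in l, 0 < En (yn n) := hEy.eventually (lt_mem_nhds h)
    have h2 : ∀ᶠ n in l, 0 ≤ En (vn n) := by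
      filter_upwards [h1, hc] with n h3 h4
      exact (S.En_pos h4 h3).le
    exact lt_of_le_of_ne (ge_of_tendsto hEv h2) (S.En_ne v hvΩ).symm
  have hEneg : En y < 0 → En v < 0 := by
    intro h
    have h1 : ∀ᶠ n in l, En (yn n) < 0 := hEy.eventually (gt_mem_nhds h)
    have h2 : ∀ᶠ n in l, En (vn n) ≤ 0 := by
      filter_upwards [h1, hc] with n h3 h4
      by_contra hcon
      exact absurd (S.En_pos h4.symm (not_le.1 hcon)) (not_lt.2 h3.le)
    exact lt_of_le_of_ne (le_of_tendsto hEv h2) (S.En_ne v hvΩ)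
  have hJJ : J v = J y + t := by
    refine tendsto_nhds_unique_of_eventuallyEq hJv (hJy.add ht) ?_
    filter_upwards [hc] with n hn
    exact S.J_conn hn
  have hboth : J y + Tp ≤ 0 ∧ 0 ≤ J v - Tm := by
    rcases lt_or_gt_of_ne (S.En_ne y hyΩ) with h | h
    · have h1 := S.blow_neg hyΩ hBp h
      have h2 := S.blowB_neg hvΩ hBm (hEneg h)
      constructor <;> linarith
    · exact ⟨S.blow_pos hyΩ hBp h, S.blowB_pos hvΩ hBm (hEpos h)⟩
  obtain ⟨hb1, hb2⟩ := hboth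
  have hyU : y ∉ U0 X Ω J := by
    rintro ⟨w, hw⟩
    obtain ⟨w', hw', -⟩ := hw.split (s := Tp) (by
      rw [uIcc_of_le (by linarith)]; exact ⟨by linarith, by linarith⟩)
    exact hBp.2.1 ⟨w', hw'⟩
  have hvU : v ∉ U0 X Ω J := by
    rintro ⟨w, hw⟩
    obtain ⟨w', hw', -⟩ := hw.split (s := -Tm) (by
      rw [uIcc_of_ge (by linarith)]; exact ⟨by linarith, by linarith⟩)
    exact hBm.2.1 ⟨w', hw'⟩
  have ey : ∀ᶠ n in l, J (yn n) < 0 := hJy.eventually (gt_mem_nhds (by linarith))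
  have ev : ∀ᶠ n in l, 0 < J (vn n) := hJv.eventually (lt_mem_nhds (by linarith))
  have hynU : ∀ᶠ n in l, yn n ∈ U0 X Ω J := by
    filter_upwards [hc, ey, ev] with n h1 h2 h3
    have h4 := S.J_conn h1
    obtain ⟨w', hw', -⟩ := h1.split (s := -J (yn n)) (by
      rw [uIcc_of_le (by linarith)]; exact ⟨by linarith, by linarith⟩)
    exact ⟨w', hw'⟩
  have hvnU : ∀ᶠ n in l, vn n ∈ U0 X Ω J := by
    filter_upwards [hc, ey, ev] with n h1 h2 h3
    have h4 := S.J_conn h1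
    obtain ⟨w', hw', -⟩ := h1.symm.split (s := -J (vn n)) (by
      rw [uIcc_of_ge (by linarith)]; exact ⟨by linarith, by linarith⟩)
    exact ⟨w', hw'⟩
  exact ⟨⟨mem_closure_of_tendsto hy hynU, hyU⟩, ⟨mem_closure_of_tendsto hv hvnU, hvU⟩⟩

theorem propP [FiniteDimensional ℝ E] (S : TimeSystem X Ω J En) {ι : Type*} {l : Filter ι}
    [l.NeBot] {yn vn : ι → E} {tn : ι → ℝ} {y v : E} {t : ℝ} (hy : Tendsto yn l (𝓝 y))
    (hv : Tendsto vn l (𝓝 v)) (ht : Tendsto tn l (𝓝 t))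
    (hc : ∀ᶠ n in l, Conn X Ω (yn n) (tn n) (vn n)) (hyΩ : y ∈ Ω) (hvΩ : v ∈ Ω)
    (hvN : v ∉ NN X Ω J) : Conn X Ω y t v := by
  by_contra hno
  rcases lt_trichotomy t 0 with h | h | h
  · have h1 := S.core hv hy ht.neg (hc.mono fun n hn => hn.symm) hvΩ hyΩ (by linarith) (by
      intro hcon
      have := hcon.symm
      rw [neg_neg] at this
      exact hno this)
    exact hvN h1.1
  · subst h
    have h1 : Conn X Ω y 0 y := conn_zero S.isOpen S.smooth1 hyΩ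
    have h2 : Tendsto (fun n => fl X Ω (tn n, yn n)) l (𝓝 (fl X Ω (0, y))) :=
      (h1.continuousAt_fl S.isOpen S.smooth1).tendsto.comp (ht.prodMk_nhds hy)
    rw [h1.fl_eq S.isOpen S.smooth1] at h2
    have h3 : (fun n => fl X Ω (tn n, yn n)) =ᶠ[l] vn := by
      filter_upwards [hc] with n hn
      exact hn.fl_eq S.isOpen S.smooth1
    have h4 := tendsto_nhds_unique_of_eventuallyEq h2 hv h3
    exact hno (h4 ▸ h1)
  · exact hvN (S.core hy hv ht hc hyΩ hvΩ h hno).2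

open Classical in
/-- The first integral with prescribed values `η` on `{J = J₀}`. -/
noncomputable def integral (X : E → E) (Ω : Set E) (J : E → ℝ) (J₀ : ℝ) (η : E → ℝ) (y : E) : ℝ :=
  if ∃ w, Conn X Ω y (J₀ - J y) w then η (fl X Ω (J₀ - J y, y)) else 0

variable {J₀ : ℝ} {η : E → ℝ}

theorem integral_of_conn (S : TimeSystem X Ω J En) (h : Conn X Ω y (J₀ - J y) w) :
    integral X Ω J J₀ η y = η w := by
  unfold integral
  rw [if_pos ⟨w, h⟩, h.fl_eq S.isOpen S.smooth1]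

theorem integral_of_not (h : ¬ ∃ w, Conn X Ω y (J₀ - J y) w) :
    integral X Ω J J₀ η y = 0 := by
  unfold integral
  rw [if_neg h]

theorem exists_of_integral_ne (S : TimeSystem X Ω J En) (h : integral X Ω J J₀ η y ≠ 0) :
    ∃ w, Conn X Ω y (J₀ - J y) w ∧ η w ≠ 0 := by
  by_cases hc : ∃ w, Conn X Ω y (J₀ - J y) w
  · obtain ⟨w, hw⟩ := hc
    rw [S.integral_of_conn hw] at h
    exact ⟨w, hw, h⟩
  · exact absurd (integral_of_not hc) h

theorem integral_inv (S : TimeSystem X Ω J En) (h : Conn X Ω y t v) :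
    integral X Ω J J₀ η v = integral X Ω J J₀ η y := by
  have hJ := S.J_conn h
  by_cases hc : ∃ w, Conn X Ω y (J₀ - J y) w
  · obtain ⟨w, hw⟩ := hc
    have h2 : Conn X Ω v (J₀ - J v) w := by
      have := Conn.trans S.isOpen S.smooth1 h.symm hw
      convert this using 1
      rw [hJ]; ring
    rw [S.integral_of_conn hw, S.integral_of_conn h2]
  · have hc2 : ¬ ∃ w, Conn X Ω v (J₀ - J v) w := by
      rintro ⟨w, hw⟩
      refine hc ⟨w, ?_⟩
      have := Conn.trans S.isOpen S.smooth1 h hw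
      convert this using 1
      rw [hJ]; ring
    rw [integral_of_not hc, integral_of_not hc2]

theorem integral_section [FiniteDimensional ℝ E] (S : TimeSystem X Ω J En) (hy : y ∈ Ω)
    (hJ : J y = J₀) : integral X Ω J J₀ η y = η y := by
  have h : Conn X Ω y (J₀ - J y) y := by
    rw [hJ, sub_self]; exact conn_zero S.isOpen S.smooth1 hy
  exact S.integral_of_conn h

theorem integral_smooth [FiniteDimensional ℝ E] (S : TimeSystem X Ω J En)
    (hη : ContDiff ℝ ∞ η) (hcs : HasCompactSupport η) (hsup : tsupport η ⊆ Ω \ NN X Ω J)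
    (hy : y ∈ Ω) : ContDiffAt ℝ ∞ (integral X Ω J J₀ η) y := by
  have hΩ := S.isOpen
  have hX := S.smooth1
  have hJat : ContDiffAt ℝ ∞ J y := S.smoothJ.contDiffAt (hΩ.mem_nhds hy)
  have hmap : ContDiffAt ℝ ∞ (fun z : E => ((J₀ - J z, z) : ℝ × E)) y :=
    (contDiffAt_const.sub hJat).prodMk contDiffAt_id
  by_cases hc : ∃ w, Conn X Ω y (J₀ - J y) w
  · obtain ⟨w, hw⟩ := hc
    have h1 : ContDiffAt ℝ ∞ (fl X Ω) (J₀ - J y, y) := hw.contDiffAt_fl hΩ S.smooth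
    have h2 : ContDiffAt ℝ ∞ (fun z : E => η (fl X Ω (J₀ - J z, z))) y :=
      hη.contDiffAt.comp y (ContDiffAt.comp (g := fl X Ω) y h1 hmap)
    refine h2.congr_of_eventuallyEq ?_
    have h3 : ∀ᶠ z in 𝓝 y, Conn X Ω z (J₀ - J z) (fl X Ω (J₀ - J z, z)) :=
      hmap.continuousAt.eventually (hw.eventually_conn_fl hΩ hX)
    filter_upwards [h3] with z hz
    exact S.integral_of_conn hz
  · -- the integral vanishes near `y`
    have hzero : ∀ᶠ z in 𝓝 y, integral X Ω J J₀ η z = 0 := by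
      by_contra hcon
      rw [Filter.not_eventually] at hcon
      have hfr : ∃ᶠ z in 𝓝 y, ∃ w, Conn X Ω z (J₀ - J z) w ∧ w ∈ tsupport η := by
        refine hcon.mono fun z hz => ?_
        obtain ⟨w, hw, hw'⟩ := S.exists_of_integral_ne hz
        exact ⟨w, hw, subset_tsupport η hw'⟩
      obtain ⟨zn, hzn, hzn'⟩ := exists_seq_forall_of_frequently hfr
      choose wn hwn hwn' using hzn'
      obtain ⟨w, hw, φ, hφ, hlim⟩ := hcs.isCompact.tendsto_subseq hwn'
      have hwΩ := hsup hw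
      have h1 : Tendsto (fun n => zn (φ n)) atTop (𝓝 y) := hzn.comp hφ.tendsto_atTop
      have h2 : Tendsto (fun n => J₀ - J (zn (φ n))) atTop (𝓝 (J₀ - J y)) :=
        tendsto_const_nhds.sub (hJat.continuousAt.tendsto.comp h1)
      have h3 := S.propP h1 hlim h2 (Eventually.of_forall fun n => hwn (φ n)) hy hwΩ.1 hwΩ.2
      exact hc ⟨w, h3⟩
    exact contDiffAt_const.congr_of_eventuallyEq hzero

theorem integral_deriv [FiniteDimensional ℝ E] (S : TimeSystem X Ω J En)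
    (hη : ContDiff ℝ ∞ η) (hcs : HasCompactSupport η) (hsup : tsupport η ⊆ Ω \ NN X Ω J)
    (hy : y ∈ Ω) : fderiv ℝ (integral X Ω J J₀ η) y (X y) = 0 := by
  have hc : Conn X Ω y 0 y := conn_zero S.isOpen S.smooth1 hy
  obtain ⟨γ, a, b, ha0, hb0, -, -, h0, -, hsol⟩ := hc
  have h1 : DifferentiableAt ℝ (integral X Ω J J₀ η) y :=
    (S.integral_smooth hη hcs hsup hy).differentiableAt (by simp)
  have h2 : HasDerivAt γ (X y) 0 := by
    have := (hsol 0 ⟨ha0, hb0⟩).2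
    rwa [h0] at this
  have h3 : HasDerivAt (fun s => integral X Ω J J₀ η (γ s))
      (fderiv ℝ (integral X Ω J J₀ η) y (X y)) 0 := by
    have h4 : HasFDerivAt (integral X Ω J J₀ η) (fderiv ℝ (integral X Ω J J₀ η) y) (γ 0) := by
      rw [h0]; exact h1.hasFDerivAt
    exact h4.comp_hasDerivAt 0 h2
  have h5 : (fun s => integral X Ω J J₀ η (γ s)) =ᶠ[𝓝 0]
      fun _ => integral X Ω J J₀ η y := by
    filter_upwards [Ioo_mem_nhds ha0 hb0] with s hs
    exact S.integral_inv ⟨γ, a, b, ha0, hb0, hs.1, hs.2, h0, rfl, hsol⟩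
  have h6 : HasDerivAt (fun s => integral X Ω J J₀ η (γ s)) 0 0 :=
    (hasDerivAt_const (0 : ℝ) (integral X Ω J J₀ η y)).congr_of_eventuallyEq h5
  exact h3.unique h6

end TimeSystem

end Pool.Agent.H99
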